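import Pool.Agent.Helper85.SJ.Str
import Pool.Graph.R_pool_sql_team_seeded_843ab51a.V1141.OF.Orth2

/-!
# Irreducible Lie algebras of skew operators with an element with one nontrivial Jordan block
-/

set_option linter.unusedSectionVars false
set_option autoImplicit false

namespace Pool.Agent.Helper85.SJ

open Module Finset Pool.Agent.Y126.JB Pool.Agent.V1141.OF

variable {K : Type} [Field K] [CharZero K] {T : Type} [AddCommGroup T] [Module K T]
  [FiniteDimensional K T] {ω : T →ₗ[K] T →ₗ[K] K} {e h f : End K T} {D : ℕ} {x : ℕ → T}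

section coord

/-- The component in the string. -/
noncomputable def pS (ω : T →ₗ[K] T →ₗ[K] K) (D : ℕ) (x : ℕ → T) : T →ₗ[K] T :=
  ∑ i ∈ range (D + 1), ((ω (x (D - i)) (x i))⁻¹ • ω (x (D - i))).smulRight (x i)

theorem pS_apply (v : T) : pS ω D x v =
    ∑ i ∈ range (D + 1), ((ω (x (D - i)) (x i))⁻¹ * ω (x (D - i)) v) • x i := by
  rw [pS, LinearMap.sum_apply]
  refine sum_congr rfl fun i _ => ?_
  rw [LinearMap.smulRight_apply, LinearMap.smul_apply, smul_eq_mul]

/-- The component in the complement. -/
noncomputable def pR (ω : T →ₗ[K] T →ₗ[K] K) (D : ℕ) (x : ℕ → T) : T →ₗ[K] T :=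
  LinearMap.id - pS ω D x

theorem pR_apply (v : T) : pR ω D x v = v - pS ω D x v := rfl

theorem dec (v : T) : v = pS ω D x v + pR ω D x v := by
  rw [pR_apply]
  abel

variable (hs : Str ω e h f D x)

include hs in
theorem om_pS (j : ℕ) (v : T) : ω (x j) (pS ω D x v) = ω (x j) v := by
  rw [pS_apply, map_sum]
  by_cases hj : j ≤ D
  · rw [Finset.sum_eq_single (D - j)]
    · rw [map_smul, smul_eq_mul, show D - (D - j) = j by omega]
      have h1 := hs.pair j (D - j) (by omega)
      field_simp
    · intro i hi hij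
      rw [mem_range] at hi
      rw [map_smul, hs.orth j i (by omega), smul_zero]
    · intro h1
      exact absurd (mem_range.2 (by omega)) h1
  · rw [hs.zero j (by omega), map_zero, LinearMap.zero_apply]
    refine sum_eq_zero fun i _ => ?_
    rw [LinearMap.zero_apply]

include hs in
theorem om_pR (j : ℕ) (v : T) : ω (x j) (pR ω D x v) = 0 := by
  rw [pR_apply, map_sub, om_pS hs, sub_self]

theorem pS_of {r : T} (hr : ∀ i, ω (x i) r = 0) : pS ω D x r = 0 := by
  rw [pS_apply]
  refine sum_eq_zero fun i _ => ?_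
  rw [hr, mul_zero, zero_smul]

theorem pR_of {r : T} (hr : ∀ i, ω (x i) r = 0) : pR ω D x r = r := by
  rw [pR_apply, pS_of hr, sub_zero]

include hs in
theorem pR_x (j : ℕ) : pR ω D x (x j) = 0 := by
  by_cases hj : j ≤ D
  · rw [pR_apply, pS_apply, Finset.sum_eq_single j]
    · have h1 := hs.pair (D - j) j (by omega)
      rw [inv_mul_cancel₀ h1, one_smul, sub_self]
    · intro i hi hij
      rw [mem_range] at hi
      rw [hs.orth (D - i) j (by omega), mul_zero, zero_smul]
    · intro h1
      exact absurd (mem_range.2 (by omega)) h1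
  · rw [hs.zero j (by omega), map_zero]

include hs in
theorem pR_pS (v : T) : pR ω D x (pS ω D x v) = 0 := by
  rw [pS_apply, map_sum]
  refine sum_eq_zero fun i _ => ?_
  rw [map_smul, pR_x hs, smul_zero]

include hs in
theorem pR_map {g : End K T} (hx : ∀ i, ∃ c : K, ∃ j, g (x i) = c • x j)
    (hk : ∀ r, (∀ i, ω (x i) r = 0) → g r = 0) (v : T) : pR ω D x (g v) = 0 := by
  rw [dec (ω := ω) (D := D) (x := x) v, map_add, hk _ fun i => om_pR hs i v, add_zero, pS_apply,
    map_sum, map_sum]
  refine sum_eq_zero fun i _ => ?_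
  obtain ⟨c, j, hc⟩ := hx i
  rw [map_smul, map_smul, hc, map_smul, pR_x hs, smul_zero, smul_zero]

include hs in
theorem ex_e (i : ℕ) : ∃ c : K, ∃ j, e (x i) = c • x j := by
  rcases i with _ | i
  · exact ⟨0, 0, by rw [zero_smul, hs.e_zero]⟩
  · exact ⟨_, _, hs.e_x i⟩

include hs in
theorem pR_e (v : T) : pR ω D x (e v) = 0 :=
  pR_map hs (ex_e hs) (fun r hr => (hs.kill r hr).1) v

include hs in
theorem pR_h (v : T) : pR ω D x (h v) = 0 :=
  pR_map hs (fun i => ⟨_, _, hs.h_x i⟩) (fun r hr => (hs.kill r hr).2.1) v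

include hs in
theorem pR_f (v : T) : pR ω D x (f v) = 0 :=
  pR_map hs (fun i => ⟨1, _, by rw [one_smul, hs.f_x i]⟩) (fun r hr => (hs.kill r hr).2.2) v

/-- Two linear maps are equal if they agree on the string and on the complement. -/
theorem ext_str {W : Type} [AddCommGroup W] [Module K W] (hs : Str ω e h f D x) {g g' : T →ₗ[K] W}
    (h1 : ∀ i, i ≤ D → g (x i) = g' (x i)) (h2 : ∀ r, (∀ i, ω (x i) r = 0) → g r = g' r) :
    g = g' := by
  refine LinearMap.ext fun v => ?_
  rw [dec (ω := ω) (D := D) (x := x) v, map_add, map_add, h2 _ fun i => om_pR hs i v, pS_apply,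
    map_sum, map_sum]
  congr 1
  refine sum_congr rfl fun i hi => ?_
  rw [map_smul, map_smul, h1 i (by rw [mem_range] at hi; omega)]

include hs in
/-- `h` is diagonalizable. -/
theorem gE_h {ν : K} {v : T} (hv : v ∈ gE h ν) : h v = ν • v := by
  refine gE_ind (p := fun v => h v = ν • v) (by rw [map_zero, smul_zero]) (fun v _ h1 => ?_) hv
  obtain ⟨w, hw⟩ : ∃ w, w = h v - ν • v := ⟨_, rfl⟩
  rw [← hw] at h1
  have h2 : ∀ j (u : T), ω (x j) (h u) = -((D : K) - 2 * j) * ω (x j) u := by
    intro j u
    have h3 := hs.skh (x j) u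
    rw [hs.h_x, map_smul, LinearMap.smul_apply, smul_eq_mul] at h3
    linear_combination h3
  have h3 : ∀ j, ω (x j) w = 0 := by
    intro j
    have h4 : ω (x j) (h w) = ν * ω (x j) w := by rw [h1, map_smul, smul_eq_mul]
    rw [h2] at h4
    have h5 : ω (x j) w = (-((D : K) - 2 * j) - ν) * ω (x j) v := by
      rw [hw, map_sub, h2, map_smul, smul_eq_mul]
      ring
    have h6 : (-((D : K) - 2 * j) - ν) * ω (x j) w = 0 := by linear_combination h4
    rcases mul_eq_zero.1 h6 with h7 | h7
    · rw [h5, h7, zero_mul]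
    · exact h7
  have h4 : h w = 0 := (hs.kill w h3).2.1
  have h5 : w = -ν • pR ω D x v := by
    rw [← pR_of (D := D) h3, hw, map_sub, pR_h hs, map_smul]
    module
  have h6 : ν • w = 0 := by rw [← h1, h4]
  have h7 : w = 0 := by
    rcases smul_eq_zero.1 h6 with h8 | h8
    · rw [h5, h8, neg_zero, zero_smul]
    · exact h8
  rw [h7] at hw
  exact (sub_eq_zero.1 hw.symm)

include hs in
/-- `ad h` is diagonalizable. -/
theorem gE_adh {μ : K} {Y : End K T} (hY : Y ∈ gE (ad K h) μ) : ad K h Y = μ • Y := by
  have key : ∀ (a : K) (v : T), h v = a • v → (ad K h Y) v = (μ • Y) v := by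
    intro a v hv
    have h1 : v ∈ gE h a := mem_gE.2 ⟨1, by
      rw [pow_one, LinearMap.sub_apply, LinearMap.smul_apply, Module.End.one_apply, hv, sub_self]⟩
    have h2 := gE_h hs (gE_mul hY h1)
    rw [ad_apply, LinearMap.sub_apply, Module.End.mul_apply, Module.End.mul_apply, hv, map_smul,
      h2, LinearMap.smul_apply]
    module
  refine ext_str hs (fun i _ => key _ _ (hs.h_x i)) fun r hr => key 0 r ?_
  rw [(hs.kill r hr).2.1, zero_smul]

include hs in
/-- the sum of the string -/
theorem even_of_sym (hsym : ∀ u v, ω u v = ω v u) : Even D := by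
  have h3 : ∀ i j, i + j = D → ω (x i) (x j) = (-1) ^ i * ω (x 0) (x D) := by
    intro i
    induction i with
    | zero =>
      intro j hj
      rw [show j = D by omega, pow_zero, one_mul]
    | succ i ih =>
      intro j hj
      have h1 := hs.skf (x i) (x j)
      rw [hs.f_x, hs.f_x, ih (j + 1) (by omega)] at h1
      rw [pow_succ]
      linear_combination h1
  by_contra hodd
  rw [Nat.not_even_iff_odd] at hodd
  have h1 := h3 D 0 (by omega)
  rw [hodd.neg_one_pow, hsym] at h1
  have h2 : (2 : K) * ω (x 0) (x D) = 0 := by linear_combination h1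
  exact hs.pair 0 D (by omega) ((mul_eq_zero.1 h2).resolve_left two_ne_zero)

end coord

section tt

/-- The operators `TT` for a symmetric form, as a bilinear map. -/
noncomputable def tt (ω : T →ₗ[K] T →ₗ[K] K) : T →ₗ[K] T →ₗ[K] End K T :=
  LinearMap.mk₂ K (fun a b => TT ω 1 a b)
    (fun a a' b => by
      refine LinearMap.ext fun z => ?_
      rw [LinearMap.add_apply, TT_apply, TT_apply, TT_apply, map_add, LinearMap.add_apply]
      module)
    (fun c a b => by
      refine LinearMap.ext fun z => ?_
      rw [LinearMap.smul_apply, TT_apply, TT_apply, map_smul, LinearMap.smul_apply, smul_eq_mul]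
      module)
    (fun a b b' => by
      refine LinearMap.ext fun z => ?_
      rw [LinearMap.add_apply, TT_apply, TT_apply, TT_apply, map_add, LinearMap.add_apply]
      module)
    (fun c a b => by
      refine LinearMap.ext fun z => ?_
      rw [LinearMap.smul_apply, TT_apply, TT_apply, map_smul, LinearMap.smul_apply, smul_eq_mul]
      module)

theorem tt_eq (a b : T) : tt ω a b = TT ω 1 a b := rfl

theorem tt_apply (a b z : T) : tt ω a b z = ω a z • b - ω b z • a := by
  rw [tt_eq, TT_apply, one_mul]

theorem tt_swap (a b : T) : tt ω a b = -tt ω b a := by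
  refine LinearMap.ext fun z => ?_
  rw [LinearMap.neg_apply, tt_apply, tt_apply]
  abel

theorem tt_self (a : T) : tt ω a a = 0 := by
  refine LinearMap.ext fun z => ?_
  rw [tt_apply, sub_self, LinearMap.zero_apply]

/-- The bracket with a skew operator. -/
theorem tt_br {Z : End K T} (hZ : ∀ u v, ω (Z u) v + ω u (Z v) = 0) (a b : T) :
    Z * tt ω a b - tt ω a b * Z = tt ω (Z a) b + tt ω a (Z b) := by
  refine LinearMap.ext fun z => ?_
  rw [LinearMap.sub_apply, Module.End.mul_apply, Module.End.mul_apply, LinearMap.add_apply,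
    tt_apply, tt_apply, tt_apply, tt_apply, map_sub, map_smul, map_smul]
  have h1 : ω a (Z z) = -ω (Z a) z := by linear_combination hZ a z
  have h2 : ω b (Z z) = -ω (Z b) z := by linear_combination hZ b z
  rw [h1, h2]
  module

theorem tt_skew (hsym : ∀ u v, ω u v = ω v u) (a b u v : T) :
    ω (tt ω a b u) v + ω u (tt ω a b v) = 0 := by
  rw [tt_apply, tt_apply, map_sub, map_sub, LinearMap.sub_apply, map_smul, map_smul, map_smul,
    map_smul, LinearMap.smul_apply, LinearMap.smul_apply, hsym u a, hsym u b]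
  simp only [smul_eq_mul]
  ring

end tt

end Pool.Agent.Helper85.SJ
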