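import Pool.Agent.Helper85.SJ.Orth

/-!
# The whole orthogonal Lie algebra, second part
-/

set_option linter.unusedSectionVars false
set_option autoImplicit false

namespace Pool.Agent.Helper85.SJ

open Module Finset Pool.Agent.Y126.JB Pool.Agent.V1141.OF

variable {K : Type} [Field K] [CharZero K] {T : Type} [AddCommGroup T] [Module K T]
  [FiniteDimensional K T] {ω : T →ₗ[K] T →ₗ[K] K} {e h f : End K T} {d : ℕ} {x : ℕ → T}
  {L : Submodule K (End K T)}

/-- The vectors `b` of the complement with `κ e ^ d + tt (x 0) b` in `L` for some `κ`. -/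
def NN (ω : T →ₗ[K] T →ₗ[K] K) (L : Submodule K (End K T)) (e : End K T) (d : ℕ) (x : ℕ → T) :
    Submodule K T where
  carrier := {b | (∀ i, ω (x i) b = 0) ∧ ∃ κ : K, κ • e ^ d + tt ω (x 0) b ∈ L}
  zero_mem' := ⟨fun i => map_zero _, 0, by rw [zero_smul, map_zero, add_zero]; exact L.zero_mem⟩
  add_mem' := by
    rintro a b ⟨ha, κ, hκ⟩ ⟨hb, κ', hκ'⟩
    refine ⟨fun i => by rw [map_add, ha, hb, add_zero], κ + κ', ?_⟩
    have h1 := L.add_mem hκ hκ'
    have h2 : κ • e ^ d + tt ω (x 0) a + (κ' • e ^ d + tt ω (x 0) b) =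
        (κ + κ') • e ^ d + tt ω (x 0) (a + b) := by
      rw [map_add, add_smul]
      abel
    rwa [h2] at h1
  smul_mem' := by
    rintro c a ⟨ha, κ, hκ⟩
    refine ⟨fun i => by rw [map_smul, ha, smul_zero], c * κ, ?_⟩
    have h1 := L.smul_mem c hκ
    rwa [smul_add, smul_smul, ← map_smul] at h1

/-- The vectors `b` of the complement with `tt (x 0) b` in `L`. -/
def AA (ω : T →ₗ[K] T →ₗ[K] K) (L : Submodule K (End K T)) (x : ℕ → T) : Submodule K T where
  carrier := {b | (∀ i, ω (x i) b = 0) ∧ tt ω (x 0) b ∈ L}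
  zero_mem' := ⟨fun i => map_zero _, by rw [map_zero]; exact L.zero_mem⟩
  add_mem' := by
    rintro a b ⟨ha, hκ⟩ ⟨hb, hκ'⟩
    refine ⟨fun i => by rw [map_add, ha, hb, add_zero], ?_⟩
    rw [map_add]
    exact L.add_mem hκ hκ'
  smul_mem' := by
    rintro c a ⟨ha, hκ⟩
    refine ⟨fun i => by rw [map_smul, ha, smul_zero], ?_⟩
    rw [map_smul]
    exact L.smul_mem c hκ

theorem mem_NN {b : T} : b ∈ NN ω L e d x ↔ (∀ i, ω (x i) b = 0) ∧
    ∃ κ : K, κ • e ^ d + tt ω (x 0) b ∈ L := Iff.rfl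

theorem mem_AA {b : T} : b ∈ AA ω L x ↔ (∀ i, ω (x i) b = 0) ∧ tt ω (x 0) b ∈ L := Iff.rfl

theorem AA_le : AA ω L x ≤ NN ω L e d x := by
  intro b hb
  refine ⟨hb.1, 0, ?_⟩
  rw [zero_smul, zero_add]
  exact hb.2

variable (hc : Ctx ω L e h f d x)

include hc in
/-- The component of the value at the lowest vector. -/
theorem low_mem [IsAlgClosed K] {Y : End K T} (hY : Y ∈ L) :
    pR ω (2 * d) x (Y (x (2 * d))) ∈ NN ω L e d x := by
  obtain ⟨X, hX, hXe, hXh, hXp⟩ := exists_hw hc hY
  obtain ⟨κ, hκ⟩ := hw_form hc hX hXe hXh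
  rw [hXp] at hκ
  refine ⟨fun i => om_pR hc.str i _, ω (x 0) (x (2 * d)) * κ, ?_⟩
  have h1 := L.smul_mem (ω (x 0) (x (2 * d))) hX
  rw [hκ, smul_add, smul_smul, ← map_smul, smul_smul,
    mul_inv_cancel₀ (hc.str.pair 0 (2 * d) (by omega)), one_smul] at h1
  exact h1

include hc in
/-- The component of the values at all vectors of the string. -/
theorem val_mem [IsAlgClosed K] {Y : End K T} (hY : Y ∈ L) (j : ℕ) :
    pR ω (2 * d) x (Y (x j)) ∈ NN ω L e d x := by
  by_cases hj : 2 * d < j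
  · rw [hc.str.zero j hj, map_zero, map_zero]
    exact Submodule.zero_mem _
  · obtain ⟨i, hi⟩ : ∃ i, j + i = 2 * d := ⟨2 * d - j, by omega⟩
    induction i generalizing j Y with
    | zero =>
      rw [show j = 2 * d by omega]
      exact low_mem hc hY
    | succ i ih =>
      have h1 := ih (ad_e_mem hc hY) (j + 1) (by omega) (by omega)
      have hne : (((j : ℕ) : K) + 1) * (((2 * d : ℕ) : K) - (j : K)) ≠ 0 := by
        refine mul_ne_zero (Nat.cast_add_one_ne_zero _) (sub_ne_zero.2 ?_)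
        intro h4
        have := Nat.cast_inj.1 h4
        omega
      rw [ad_apply, LinearMap.sub_apply, Module.End.mul_apply, Module.End.mul_apply, map_sub,
        pR_e hc.str, hc.str.e_x, map_smul, map_smul, zero_sub, ← neg_smul] at h1
      exact (Submodule.smul_mem_iff _ (neg_ne_zero.2 hne)).1 h1

include hc in
theorem AA_all {a : T} (ha : a ∈ AA ω L x) (i : ℕ) : tt ω (x i) a ∈ L := by
  induction i with
  | zero => exact ha.2
  | succ i ih =>
    have h1 := hc.br f hc.fL _ ih
    rw [tt_br hc.str.skf, hc.str.f_x, (hc.str.kill a ha.1).2.2, map_zero, add_zero] at h1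
    exact h1

include hc in
theorem AA_pS {a : T} (ha : a ∈ AA ω L x) (v : T) : tt ω (pS ω (2 * d) x v) a ∈ L := by
  rw [pS_apply, map_sum, LinearMap.sum_apply]
  refine L.sum_mem fun i _ => ?_
  rw [map_smul, LinearMap.smul_apply]
  exact L.smul_mem _ (AA_all hc ha i)

include hc in
/-- The component of the values of elements of `L` at elements of `NN`, modulo `NN`. -/
theorem val_NN [IsAlgClosed K] {Y : End K T} (hY : Y ∈ L) {b : T} (hb : b ∈ NN ω L e d x) :
    ∃ c : K, ω (x 0) (x (2 * d)) • pR ω (2 * d) x (Y b) - c • b ∈ NN ω L e d x := by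
  obtain ⟨hbR, κ, hκ⟩ := hb
  obtain ⟨Z, hZ⟩ : ∃ Z, Z = κ • e ^ d + tt ω (x 0) b := ⟨_, rfl⟩
  rw [← hZ] at hκ
  have h1 := low_mem hc (hc.br Y hY Z hκ)
  have hd := hc.dpos
  obtain ⟨c0, -, hc0⟩ := pow_x hc d (by omega) d (by omega)
  rw [show d + d = 2 * d by omega] at hc0
  have h2 : Z (x (2 * d)) = (κ * c0) • x d + ω (x 0) (x (2 * d)) • b := by
    rw [hZ, LinearMap.add_apply, LinearMap.smul_apply, hc0, tt_apply, hc.sym b, hbR, zero_smul,
      sub_zero, smul_smul]
  have h3 : ∀ v, pR ω (2 * d) x (Z v) = ω (x 0) v • b := by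
    intro v
    have h4 : pR ω (2 * d) x ((e ^ d) v) = 0 := by
      obtain ⟨k, rfl⟩ : ∃ k, d = k + 1 := ⟨d - 1, by omega⟩
      rw [pow_succ', Module.End.mul_apply, pR_e hc.str]
    rw [hZ, LinearMap.add_apply, LinearMap.smul_apply, map_add, map_smul, h4, smul_zero, zero_add,
      tt_apply, map_sub, map_smul, map_smul, pR_x hc.str, smul_zero, sub_zero, pR_of hbR]
  rw [LinearMap.sub_apply, Module.End.mul_apply, Module.End.mul_apply, map_sub, h3, h2, map_add,
    map_add, map_smul, map_smul, map_smul, map_smul] at h1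
  have h5 := Submodule.smul_mem _ (κ * c0) (val_mem hc hY d)
  refine ⟨ω (x 0) (Y (x (2 * d))), ?_⟩
  have h6 := Submodule.sub_mem _ h1 h5
  have h7 : (κ * c0) • pR ω (2 * d) x (Y (x d)) +
      ω (x 0) (x (2 * d)) • pR ω (2 * d) x (Y b) - ω (x 0) (Y (x (2 * d))) • b -
      (κ * c0) • pR ω (2 * d) x (Y (x d)) =
      ω (x 0) (x (2 * d)) • pR ω (2 * d) x (Y b) - ω (x 0) (Y (x (2 * d))) • b := by abel
  rwa [h7] at h6

include hc in
theorem val_NN' [IsAlgClosed K] {Y : End K T} (hY : Y ∈ L) {b : T} (hb : b ∈ NN ω L e d x) :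
    pR ω (2 * d) x (Y b) ∈ NN ω L e d x := by
  obtain ⟨c, h1⟩ := val_NN hc hY hb
  have h2 := Submodule.add_mem _ h1 (Submodule.smul_mem _ c hb)
  rw [sub_add_cancel] at h2
  exact (Submodule.smul_mem_iff _ (hc.str.pair 0 (2 * d) (by omega))).1 h2

include hc in
/-- The sum of the string and `NN` is everything. -/
theorem NN_top [IsAlgClosed K] {r : T} (hr : ∀ i, ω (x i) r = 0) : r ∈ NN ω L e d x := by
  let U : Submodule K T := (NN ω L e d x).comap (pR ω (2 * d) x)
  have hst : ∀ Y ∈ L, ∀ u ∈ U, Y u ∈ U := by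
    intro Y hY u hu
    change pR ω (2 * d) x (Y u) ∈ NN ω L e d x
    rw [dec (ω := ω) (D := 2 * d) (x := x) u, map_add, map_add]
    refine Submodule.add_mem _ ?_ (val_NN' hc hY hu)
    rw [pS_apply, map_sum, map_sum]
    refine Submodule.sum_mem _ fun i _ => ?_
    rw [map_smul, map_smul]
    exact Submodule.smul_mem _ _ (val_mem hc hY i)
  have hU : U = ⊤ := by
    rcases hc.irr U hst with h1 | h1
    · exfalso
      have h2 : x 0 ∈ U := by
        change pR ω (2 * d) x (x 0) ∈ NN ω L e d x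
        rw [pR_x hc.str]
        exact Submodule.zero_mem _
      rw [h1, Submodule.mem_bot] at h2
      apply hc.str.pair 0 (2 * d) (by omega)
      rw [h2, map_zero, LinearMap.zero_apply]
    · exact h1
  have h1 : r ∈ U := by
    rw [hU]
    exact Submodule.mem_top
  have h2 : pR ω (2 * d) x r ∈ NN ω L e d x := h1
  rwa [pR_of hr] at h2

include hc in
/-- If `AA` is orthogonal to `NN` it is stable. -/
theorem AA_bot [IsAlgClosed K] (hperp : ∀ a ∈ AA ω L x, ∀ b ∈ NN ω L e d x, ω a b = 0) :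
    AA ω L x = ⊥ := by
  have hd := hc.dpos
  have hst : ∀ Y ∈ L, ∀ a ∈ AA ω L x, Y a ∈ AA ω L x := by
    intro Y hY a ha
    have hYa : ∀ i, ω (x i) (Y a) = 0 := by
      intro i
      have h1 := hc.sk Y hY (x i) a
      have h2 : ω (Y (x i)) a = 0 := by
        rw [dec (ω := ω) (D := 2 * d) (x := x) (Y (x i)), map_add, LinearMap.add_apply, hc.sym _ a,
          hc.sym _ a, hperp a ha _ (val_mem hc hY i), add_zero, pS_apply, map_sum]
        refine sum_eq_zero fun j _ => ?_
        rw [map_smul, hc.sym a, ha.1, smul_zero]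
      rwa [h2, zero_add] at h1
    refine ⟨hYa, ?_⟩
    have h1 := hc.br Y hY _ (AA_all hc ha 1)
    rw [tt_br (hc.sk Y hY)] at h1
    have h2 : tt ω (pR ω (2 * d) x (Y (x 1))) a + tt ω (x 1) (Y a) ∈ L := by
      have h3 := L.sub_mem h1 (AA_pS hc ha (Y (x 1)))
      have h4 : tt ω (Y (x 1)) a + tt ω (x 1) (Y a) - tt ω (pS ω (2 * d) x (Y (x 1))) a =
          tt ω (pR ω (2 * d) x (Y (x 1))) a + tt ω (x 1) (Y a) := by
        rw [pR_apply, map_sub, LinearMap.sub_apply]
        abel
      rwa [h4] at h3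
    have h3 := hc.br e hc.eL _ h2
    rw [mul_add, add_mul, add_sub_add_comm, tt_br hc.str.ske, tt_br hc.str.ske,
      (hc.str.kill _ fun i => om_pR hc.str i _).1, (hc.str.kill a ha.1).1,
      (hc.str.kill _ hYa).1, map_zero, map_zero, map_zero, LinearMap.zero_apply, add_zero,
      zero_add, add_zero] at h3
    have h4 := hc.str.e_x 0
    rw [zero_add] at h4
    rw [h4, map_smul, LinearMap.smul_apply] at h3
    refine (L.smul_mem_iff ?_).1 h3
    rw [Nat.cast_zero, zero_add, one_mul, sub_zero]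
    exact Nat.cast_ne_zero.2 (by omega)
  rcases hc.irr (AA ω L x) hst with h1 | h1
  · exact h1
  · exfalso
    have h2 : x 0 ∈ AA ω L x := by rw [h1]; exact Submodule.mem_top
    apply hc.str.pair (2 * d) 0 (by omega)
    exact h2.1 _

include hc in
/-- Elements of positive weight supported in the string. -/
theorem E_mem {a b : T} (ha : a ∈ AA ω L x) (hb : b ∈ NN ω L e d x) (hab : ω a b ≠ 0)
    (hskew : ∀ u v, ω ((e ^ d) u) v + ω u ((e ^ d) v) = 0) : e ^ d ∈ L := by
  have hd := hc.dpos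
  have hs := hc.str
  obtain ⟨hbR, κ, hκ⟩ := hb
  have h0 : ∀ i, i < 2 * d → tt ω (x i) (x 0) ∈ L := by
    intro i hi
    have h1 := hc.br _ hκ _ (AA_all hc ha i)
    rw [tt_br (hc.sk _ hκ)] at h1
    have h2 : (κ • e ^ d + tt ω (x 0) b) (x i) = κ • (e ^ d) (x i) := by
      rw [LinearMap.add_apply, LinearMap.smul_apply, tt_apply, hs.orth 0 i (by omega), zero_smul,
        hc.sym b, hbR, zero_smul, sub_zero, add_zero]
    have h3 : (κ • e ^ d + tt ω (x 0) b) a = -(ω b a • x 0) := by
      rw [LinearMap.add_apply, LinearMap.smul_apply, pow_r hc d hd ha.1, smul_zero, zero_add,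
        tt_apply, ha.1, zero_smul, zero_sub]
    have h4 : tt ω ((κ • e ^ d + tt ω (x 0) b) (x i)) a ∈ L := by
      rw [h2, map_smul, LinearMap.smul_apply]
      refine L.smul_mem _ ?_
      by_cases hid : d ≤ i
      · obtain ⟨c, -, hc'⟩ := pow_x hc d (by omega) (i - d) (by omega)
        rw [Nat.sub_add_cancel hid] at hc'
        rw [hc', map_smul, LinearMap.smul_apply]
        exact L.smul_mem _ (AA_all hc ha _)
      · obtain ⟨c, -, hc'⟩ := pow_x hc i (by omega) 0 (by omega)
        rw [zero_add] at hc'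
        rw [show d = (d - i - 1) + 1 + i by omega, pow_add, Module.End.mul_apply, hc', map_smul,
          pow_succ, Module.End.mul_apply, hs.e_zero, map_zero, smul_zero, map_zero,
          LinearMap.zero_apply]
        exact L.zero_mem
    have h5 := L.sub_mem h1 h4
    rw [add_sub_cancel_left, h3, map_neg, map_smul] at h5
    have h6 := L.neg_mem h5
    rw [neg_neg] at h6
    refine (L.smul_mem_iff ?_).1 h6
    rw [hc.sym]
    exact hab
  have hij : ∀ j i, i + j < 2 * d → tt ω (x i) (x j) ∈ L := by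
    intro j
    induction j with
    | zero => intro i hi; exact h0 i (by omega)
    | succ j ih =>
      intro i hi
      have h1 := hc.br f hc.fL _ (ih i (by omega))
      rw [tt_br hs.skf, hs.f_x, hs.f_x] at h1
      have h2 := L.sub_mem h1 (ih (i + 1) (by omega))
      rwa [add_sub_cancel_left] at h2
  have hform : (2 : K) • e ^ d = ∑ i ∈ range (2 * d + 1),
      (ω (x (2 * d - i)) (x i))⁻¹ • tt ω (x (2 * d - i)) ((e ^ d) (x i)) := by
    refine LinearMap.ext fun z => ?_
    rw [LinearMap.smul_apply, LinearMap.sum_apply]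
    have h1 : ∀ i ∈ range (2 * d + 1), ((ω (x (2 * d - i)) (x i))⁻¹ •
        tt ω (x (2 * d - i)) ((e ^ d) (x i))) z =
        (e ^ d) (((ω (x (2 * d - i)) (x i))⁻¹ * ω (x (2 * d - i)) z) • x i) +
        ((ω (x (2 * d - i)) (x i))⁻¹ * ω (x i) ((e ^ d) z)) • x (2 * d - i) := by
      intro i _
      rw [LinearMap.smul_apply, tt_apply, map_smul, smul_sub, smul_smul, smul_smul]
      have h2 : ω ((e ^ d) (x i)) z = -ω (x i) ((e ^ d) z) := by
        linear_combination hskew (x i) z
      rw [h2]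
      module
    rw [Finset.sum_congr rfl h1, Finset.sum_add_distrib, ← map_sum, ← pS_apply]
    have h2 : ∑ i ∈ range (2 * d + 1),
        ((ω (x (2 * d - i)) (x i))⁻¹ * ω (x i) ((e ^ d) z)) • x (2 * d - i) =
        pS ω (2 * d) x ((e ^ d) z) := by
      rw [pS_apply, ← Finset.sum_range_reflect]
      refine sum_congr rfl fun i hi => ?_
      rw [mem_range] at hi
      rw [show 2 * d + 1 - 1 - i = 2 * d - i by omega, show 2 * d - (2 * d - i) = i by omega,
        hc.sym (x i) (x (2 * d - i))]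
    have h3 : (e ^ d) (pS ω (2 * d) x z) = (e ^ d) z := by
      conv_rhs => rw [dec (ω := ω) (D := 2 * d) (x := x) z]
      rw [map_add, pow_r hc d hd fun i => om_pR hs i z, add_zero]
    have h4 : pS ω (2 * d) x ((e ^ d) z) = (e ^ d) z := by
      have h5 : pR ω (2 * d) x ((e ^ d) z) = 0 := by
        obtain ⟨k, rfl⟩ : ∃ k, d = k + 1 := ⟨d - 1, by omega⟩
        rw [pow_succ', Module.End.mul_apply, pR_e hs]
      rw [pR_apply, sub_eq_zero] at h5
      exact h5.symm
    rw [h2, h3, h4, two_smul]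
  have h1 : (2 : K) • e ^ d ∈ L := by
    rw [hform]
    refine L.sum_mem fun i hi => L.smul_mem _ ?_
    rw [mem_range] at hi
    by_cases hid : d ≤ i
    · obtain ⟨c, -, hc'⟩ := pow_x hc d (by omega) (i - d) (by omega)
      rw [Nat.sub_add_cancel hid] at hc'
      rw [hc', map_smul]
      exact L.smul_mem _ (hij _ _ (by omega))
    · obtain ⟨c, -, hc'⟩ := pow_x hc i (by omega) 0 (by omega)
      rw [zero_add] at hc'
      have h2 : (e ^ d) (x i) = 0 := by
        conv_lhs => rw [show d = (d - i - 1) + 1 + i by omega]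
        rw [pow_add, Module.End.mul_apply, hc', map_smul,
          pow_succ, Module.End.mul_apply, hs.e_zero, map_zero, smul_zero]
      rw [h2, map_zero]
      exact L.zero_mem
  exact (L.smul_mem_iff two_ne_zero).1 h1

include hc in
/-- The power `e ^ d` is skew if `d` is odd. -/
theorem pow_skew (n : ℕ) (u v : T) : ω ((e ^ n) u) v = (-1) ^ n * ω u ((e ^ n) v) := by
  induction n generalizing u v with
  | zero => simp
  | succ n ih =>
    have h2 : (e ^ (n + 1)) u = e ((e ^ n) u) := by rw [pow_succ', Module.End.mul_apply]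
    have h3 : (e ^ (n + 1)) v = (e ^ n) (e v) := by rw [pow_succ, Module.End.mul_apply]
    have h1 : ω (e ((e ^ n) u)) v = -ω ((e ^ n) u) (e v) := by
      linear_combination hc.str.ske ((e ^ n) u) v
    rw [h2, h3, h1, ih, pow_succ]
    ring

include hc in
theorem NN_le_of_mem (he : e ^ d ∈ L) : NN ω L e d x ≤ AA ω L x := by
  rintro b ⟨hbR, κ, hκ⟩
  refine ⟨hbR, ?_⟩
  have h1 := L.sub_mem hκ (L.smul_mem κ he)
  rwa [add_sub_cancel_left] at h1

include hc in
theorem NN_le_of_even (hd : Even d) : NN ω L e d x ≤ AA ω L x := by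
  rintro b ⟨hbR, κ, hκ⟩
  refine ⟨hbR, ?_⟩
  have h1 : κ • e ^ d = 0 := by
    refine LinearMap.ext fun u => ?_
    rw [LinearMap.zero_apply]
    apply hc.nd
    intro v
    have h2 := hc.sk _ hκ u v
    rw [LinearMap.add_apply, LinearMap.add_apply, map_add, map_add, LinearMap.add_apply] at h2
    have h3 := tt_skew hc.sym (x 0) b u v
    have h4 := pow_skew hc d u v
    rw [hd.neg_one_pow, one_mul] at h4
    rw [LinearMap.smul_apply, LinearMap.smul_apply, map_smul, map_smul, LinearMap.smul_apply,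
      smul_eq_mul, smul_eq_mul] at h2
    have h5 : 2 * (κ * ω ((e ^ d) u) v) = 0 := by linear_combination h2 - h3 + κ * h4
    rw [LinearMap.smul_apply, map_smul, LinearMap.smul_apply, smul_eq_mul]
    exact (mul_eq_zero.1 h5).resolve_left two_ne_zero
  rwa [h1, zero_add] at hκ

include hc in
/-- There is an anisotropic vector in `AA`. -/
theorem exists_aniso [IsAlgClosed K] (hr : ∃ r, r ≠ 0 ∧ ∀ i, ω (x i) r = 0)
    (hdim : Even d ∨ d = 1 ∨ 2 * d + 3 ≤ finrank K T) : ∃ a ∈ AA ω L x, ω a a ≠ 0 := by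
  have hd := hc.dpos
  obtain ⟨r, hr0, hrR⟩ := hr
  -- it is enough to find two vectors
  suffices hsuff : ∃ a ∈ AA ω L x, ∃ b ∈ AA ω L x, ω a b ≠ 0 by
    obtain ⟨a, ha, b, hb, hab⟩ := hsuff
    by_contra hcon
    push Not at hcon
    apply hab
    have h1 := hcon a ha
    have h2 := hcon b hb
    have h3 := hcon _ (Submodule.add_mem _ ha hb)
    rw [map_add, map_add, LinearMap.add_apply, LinearMap.add_apply, h1, h2, hc.sym b a] at h3
    have h4 : (2 : K) * ω a b = 0 := by linear_combination h3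
    exact (mul_eq_zero.1 h4).resolve_left two_ne_zero
  by_contra hcon
  push Not at hcon
  -- `NN` is not `⊥`
  have hN0 : r ∈ NN ω L e d x := NN_top hc hrR
  by_cases hNA : NN ω L e d x ≤ AA ω L x
  · have h1 := AA_bot hc fun a ha b hb => hcon a ha b (hNA hb)
    have h2 := hNA hN0
    rw [h1, Submodule.mem_bot] at h2
    exact hr0 h2
  · have hodd : ¬ Even d := fun h1 => hNA (NN_le_of_even hc h1)
    rw [Nat.not_even_iff_odd] at hodd
    have hd1 : d ≠ 1 := by
      intro h1
      apply hNA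
      refine NN_le_of_mem hc ?_
      rw [h1, pow_one]
      exact hc.eL
    have hdim' : 2 * d + 3 ≤ finrank K T := by
      rcases hdim with h1 | h1 | h1
      · exact absurd h1 (Nat.not_even_iff_odd.2 hodd)
      · exact absurd h1 hd1
      · exact h1
    have hA0 : AA ω L x = ⊥ := by
      refine AA_bot hc fun a ha b hb => ?_
      by_contra hab
      refine hNA (NN_le_of_mem hc (E_mem hc ha hb hab fun u v => ?_))
      rw [pow_skew hc, hodd.neg_one_pow]
      ring
    -- `NN` is a line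
    have hline : ∀ b ∈ NN ω L e d x, ∃ c : K, b = c • r := by
      intro b hb
      obtain ⟨hbR, κ, hκ⟩ := hb
      obtain ⟨-, κ', hκ'⟩ := hN0
      have h1 : κ • r - κ' • b ∈ AA ω L x := by
        refine ⟨fun i => by rw [map_sub, map_smul, map_smul, hrR, hbR, smul_zero, smul_zero,
          sub_zero], ?_⟩
        have h2 := L.sub_mem (L.smul_mem κ hκ') (L.smul_mem κ' hκ)
        have h3 : κ • (κ' • e ^ d + tt ω (x 0) r) - κ' • (κ • e ^ d + tt ω (x 0) b) =
            tt ω (x 0) (κ • r - κ' • b) := by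
          rw [map_sub, map_smul, map_smul]
          module
        rwa [h3] at h2
      rw [hA0, Submodule.mem_bot, sub_eq_zero] at h1
      have h2 : κ' ≠ 0 := by
        rintro rfl
        rw [zero_smul, zero_add] at hκ'
        have h3 : r ∈ AA ω L x := ⟨hrR, hκ'⟩
        rw [hA0, Submodule.mem_bot] at h3
        exact hr0 h3
      refine ⟨κ'⁻¹ * κ, ?_⟩
      rw [mul_smul, h1, smul_smul, inv_mul_cancel₀ h2, one_smul]
    -- the dimension
    have hspan : (⊤ : Submodule K T) ≤ Submodule.span K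
        (Set.range fun i : Fin (2 * d + 2) => if (i : ℕ) < 2 * d + 1 then x i else r) := by
      intro v _
      rw [dec (ω := ω) (D := 2 * d) (x := x) v]
      refine Submodule.add_mem _ ?_ ?_
      · rw [pS_apply]
        refine Submodule.sum_mem _ fun i hi => Submodule.smul_mem _ _ (Submodule.subset_span ?_)
        rw [mem_range] at hi
        exact ⟨⟨i, by omega⟩, if_pos hi⟩
      · obtain ⟨c, h1⟩ := hline _ (NN_top hc fun i => om_pR hc.str i v)
        rw [h1]
        refine Submodule.smul_mem _ _ (Submodule.subset_span ⟨⟨2 * d + 1, by omega⟩, ?_⟩)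
        exact if_neg (by simp)
    have h1 := finrank_range_le_card (R := K)
      (fun i : Fin (2 * d + 2) => if (i : ℕ) < 2 * d + 1 then x i else r)
    have h2 := Submodule.finrank_mono hspan
    rw [finrank_top] at h2
    rw [Fintype.card_fin] at h1
    have h3 : (Set.range fun i : Fin (2 * d + 2) =>
      if (i : ℕ) < 2 * d + 1 then x i else r).finrank K = finrank K (Submodule.span K
        (Set.range fun i : Fin (2 * d + 2) => if (i : ℕ) < 2 * d + 1 then x i else r)) := rfl
    omega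

include hc in
/-- **The whole orthogonal Lie algebra.** -/
theorem full_orth [IsAlgClosed K] (hr : ∃ r, r ≠ 0 ∧ ∀ i, ω (x i) r = 0)
    (hdim : Even d ∨ d = 1 ∨ 2 * d + 3 ≤ finrank K T) (u v : T) : tt ω u v ∈ L := by
  obtain ⟨a, ha, haa⟩ := exists_aniso hc hr hdim
  have hd := hc.dpos
  have hs := hc.str
  -- the string
  have hxx : ∀ i j, tt ω (x i) (x j) ∈ L := by
    intro i j
    have h1 := hc.br _ (AA_all hc ha i) _ (AA_all hc ha j)
    have hZ1 : tt ω (x i) a (x j) = ω (x i) (x j) • a := by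
      rw [tt_apply, hc.sym a, ha.1, zero_smul, sub_zero]
    have hZ2 : tt ω (x i) a a = -(ω a a • x i) := by
      rw [tt_apply, ha.1, zero_smul, zero_sub]
    rw [tt_br (tt_skew hc.sym (x i) a), hZ1, hZ2, map_smul, LinearMap.smul_apply, tt_self,
      smul_zero, zero_add, map_neg, map_smul, tt_swap (x j), smul_neg, neg_neg] at h1
    exact (L.smul_mem_iff haa).1 h1
  have hE : NN ω L e d x ≤ AA ω L x := by
    by_cases hev : Even d
    · exact NN_le_of_even hc hev
    · rw [Nat.not_even_iff_odd] at hev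
      refine NN_le_of_mem hc (E_mem hc ha (AA_le ha) haa fun u v => ?_)
      rw [pow_skew hc, hev.neg_one_pow]
      ring
  have hR : ∀ r, (∀ i, ω (x i) r = 0) → r ∈ AA ω L x := fun r hr => hE (NN_top hc hr)
  have hRR : ∀ r, (∀ i, ω (x i) r = 0) → ∀ r', (∀ i, ω (x i) r' = 0) → tt ω r r' ∈ L := by
    intro r hr r' hr'
    have h1 := hc.br _ (AA_all hc (hR r hr) 0) _ (AA_all hc (hR r' hr') (2 * d))
    rw [tt_br (tt_skew hc.sym (x 0) r), tt_apply, tt_apply, hc.sym r (x (2 * d)), hr, zero_smul,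
      sub_zero, hr', zero_smul, zero_sub, map_smul, LinearMap.smul_apply, map_neg, map_smul] at h1
    have h2 := L.add_mem h1 (L.smul_mem (ω r r') (hxx (2 * d) 0))
    rw [neg_add_cancel_right] at h2
    exact (L.smul_mem_iff (hs.pair 0 (2 * d) (by omega))).1 h2
  -- sums
  have hSS : ∀ u v, tt ω (pS ω (2 * d) x u) (pS ω (2 * d) x v) ∈ L := by
    intro u v
    rw [pS_apply u, map_sum, LinearMap.sum_apply]
    refine L.sum_mem fun i _ => ?_
    rw [map_smul, LinearMap.smul_apply]
    refine L.smul_mem _ ?_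
    rw [pS_apply v, map_sum]
    refine L.sum_mem fun j _ => ?_
    rw [map_smul]
    exact L.smul_mem _ (hxx i j)
  have hSR : ∀ u v, tt ω (pS ω (2 * d) x u) (pR ω (2 * d) x v) ∈ L := fun u v =>
    AA_pS hc (hR _ fun i => om_pR hs i v) u
  have h1 : tt ω u v = tt ω (pS ω (2 * d) x u) (pS ω (2 * d) x v) +
      tt ω (pS ω (2 * d) x u) (pR ω (2 * d) x v) +
      (-tt ω (pS ω (2 * d) x v) (pR ω (2 * d) x u) +
        tt ω (pR ω (2 * d) x u) (pR ω (2 * d) x v)) := by
    rw [← tt_swap, ← map_add, ← map_add, ← LinearMap.add_apply, ← map_add]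
    rw [← dec, ← dec]
  rw [h1]
  exact L.add_mem (L.add_mem (hSS u v) (hSR u v)) (L.add_mem (L.neg_mem (hSR v u))
    (hRR _ (fun i => om_pR hs i u) _ (fun i => om_pR hs i v)))

end Pool.Agent.Helper85.SJ
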