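import Pool.Agent.Helper85.SJ.Irr
import Pool.Agent.Helper2.MU.Full
import Pool.Graph.R_seed8.Y126.MU.Mem

/-!
# The whole Lie algebra of the form
-/

set_option linter.unusedSectionVars false
set_option autoImplicit false

namespace Pool.Agent.Helper85.SJ

open Module Finset Pool.Agent.Y126.JB Pool.Agent.V1141.OF Pool.Agent.Y126.MU
open Pool.Agent.H204R3.SP (SS SS_apply)

variable {K : Type} [Field K] [CharZero K] {T : Type} [AddCommGroup T] [Module K T]
  [FiniteDimensional K T] {ω : T →ₗ[K] T →ₗ[K] K} {e h f : End K T} {D : ℕ} {x : ℕ → T}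
  {L : Submodule K (End K T)} {Γ : Type} [Group Γ] {R : Representation K Γ T} {μ : Γ →* K}

/-- The conditions: if there is no other block, then the dimension is small or the eigenvalues of some
element are not a geometric progression (and the dimension is not seven if the form is symmetric);
if there is one other block and the form is symmetric then `D` is divisible by four, or two. -/
def Cond (s : ℤ) (D : ℕ) (R : Representation K Γ T) : Prop :=
  (s = 1 → finrank K T = D + 1 → D ≤ 2 ∨ (D ≠ 6 ∧ ∃ g : Γ, ∀ c a : K, (R g).charpoly ≠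
    ∏ i ∈ range (finrank K T), (Polynomial.X - Polynomial.C (c * a ^ i)))) ∧
  (s = 1 → finrank K T = D + 2 → 4 ∣ D ∨ D = 2) ∧
  (s = -1 → finrank K T = D + 1 → D ≤ 1 ∨ ∃ g : Γ, ∀ c a : K, (R g).charpoly ≠
    ∏ i ∈ range (finrank K T), (Polynomial.X - Polynomial.C (c * a ^ i)))

/-- The string is everything if there is no other block. -/
theorem prin_of_str (hs : Str ω e h f D x) (hR : ∀ r, (∀ i, ω (x i) r = 0) → r = 0) :
    Prin f (-h) e D x where
  e_w := hs.f_x
  top := hs.zero _ (Nat.lt_succ_self _)
  h_w := fun i => by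
    rw [LinearMap.neg_apply, hs.h_x, ← neg_smul]
    congr 1
    ring
  f_zero := hs.e_zero
  f_w := hs.e_x
  span := fun v => by
    refine ⟨fun i => (ω (x (D - i)) (x i))⁻¹ * ω (x (D - i)) v, ?_⟩
    conv_lhs => rw [dec (ω := ω) (D := D) (x := x) v]
    rw [hR _ fun i => om_pR hs i v, add_zero, pS_apply]
  indep := fun c hc i hi => by
    have h1 := congrArg (ω (x (D - i))) hc
    rw [map_sum, map_zero, Finset.sum_eq_single i] at h1
    · rw [map_smul, smul_eq_mul] at h1
      exact (mul_eq_zero.1 h1).resolve_right (hs.pair _ _ (by omega))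
    · intro j hj hji
      rw [mem_range] at hj
      rw [map_smul, hs.orth (D - i) j (by omega), smul_zero]
    · intro h2
      exact absurd (mem_range.2 (by omega)) h2

/-- The string is independent. -/
theorem indep_str (hs : Str ω e h f D x) : LinearIndependent K (fun i : Fin (D + 1) => x (i : ℕ)) := by
  rw [Fintype.linearIndependent_iff]
  intro c hc i
  have h1 := congrArg (ω (x (D - i))) hc
  have hi := i.2
  rw [map_sum, map_zero, Finset.sum_eq_single i] at h1
  · rw [map_smul, smul_eq_mul] at h1
    exact (mul_eq_zero.1 h1).resolve_right (hs.pair _ _ (by omega))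
  · intro j _ hji
    have h2 : (j : ℕ) ≠ i := fun h => hji (Fin.ext h)
    rw [map_smul, hs.orth (D - i) j (by omega), smul_zero]
  · intro h2
    exact absurd (mem_univ _) h2

theorem dim_le (hs : Str ω e h f D x) : D + 1 ≤ finrank K T := by
  have h1 := (indep_str hs).fintype_card_le_finrank
  rwa [Fintype.card_fin] at h1

/-- The dimension. -/
theorem finrank_str (hs : Str ω e h f D x) (hR : ∀ r, (∀ i, ω (x i) r = 0) → r = 0) :
    finrank K T = D + 1 := by
  have hsp : (⊤ : Submodule K T) ≤ Submodule.span K (Set.range fun i : Fin (D + 1) => x (i : ℕ)) := by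
    intro v _
    obtain ⟨c, hc⟩ := (prin_of_str hs hR).span v
    rw [hc]
    refine Submodule.sum_mem _ fun i hi => Submodule.smul_mem _ _ (Submodule.subset_span ?_)
    exact ⟨⟨i, mem_range.1 hi⟩, rfl⟩
  have h1 := finrank_eq_card_basis (Basis.mk (indep_str hs) hsp)
  rwa [Fintype.card_fin] at h1

/-- The dimension, from one vector in the complement. -/
theorem finrank_ge (hs : Str ω e h f D x) {r : T} (hr0 : r ≠ 0) (hr : ∀ i, ω (x i) r = 0) :
    D + 2 ≤ finrank K T := by
  have hlt : Submodule.span K (Set.range fun i : Fin (D + 1) => x (i : ℕ)) < ⊤ := by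
    rw [lt_top_iff_ne_top]
    intro htop
    have h1 : r ∈ Submodule.span K (Set.range fun i : Fin (D + 1) => x (i : ℕ)) := by
      rw [htop]
      exact Submodule.mem_top
    obtain ⟨c, hc⟩ := (Submodule.mem_span_range_iff_exists_fun K).1 h1
    apply hr0
    have h2 : ∀ i, c i = 0 := by
      intro i
      have h3 := congrArg (ω (x (D - i))) hc
      have hi := i.2
      rw [map_sum, Finset.sum_eq_single i] at h3
      · rw [map_smul, smul_eq_mul, hr] at h3
        exact (mul_eq_zero.1 h3).resolve_right (hs.pair _ _ (by omega))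
      · intro j _ hji
        have h2 : (j : ℕ) ≠ i := fun h => hji (Fin.ext h)
        rw [map_smul, hs.orth (D - i) j (by omega), smul_zero]
      · intro h2
        exact absurd (mem_univ _) h2
    rw [← hc]
    refine sum_eq_zero fun i _ => ?_
    rw [h2, zero_smul]
  have h1 := Submodule.finrank_lt_finrank_of_lt hlt
  rw [finrank_span_eq_card (indep_str hs), Fintype.card_fin, finrank_top] at h1
  omega

section typ

variable (hs : Str ω e h f D x)

include hs in
theorem pow_x' (j : ℕ) (hj : j ≤ D) : ∃ c : K, c ≠ 0 ∧ (e ^ j) (x j) = c • x 0 := by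
  induction j with
  | zero => exact ⟨1, one_ne_zero, by rw [pow_zero, one_smul]; rfl⟩
  | succ j ih =>
    obtain ⟨c, hc, h1⟩ := ih (by omega)
    have h3 : ((j : K) + 1) * ((D : K) - j) ≠ 0 := by
      refine mul_ne_zero (Nat.cast_add_one_ne_zero _) (sub_ne_zero.2 ?_)
      intro h4
      have := Nat.cast_inj.1 h4
      omega
    refine ⟨((j : K) + 1) * ((D : K) - j) * c, mul_ne_zero h3 hc, ?_⟩
    rw [pow_succ, Module.End.mul_apply, hs.e_x, map_smul, h1, smul_smul]

include hs in
theorem pow_top' (n : ℕ) (hn : D < n) : e ^ n = 0 := by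
  refine ext_str hs (fun i hi => ?_) fun r hr => ?_
  · obtain ⟨c, -, h1⟩ := pow_x' hs i hi
    obtain ⟨k, rfl⟩ : ∃ k, n = (k + 1) + i := ⟨n - i - 1, by omega⟩
    rw [pow_add, Module.End.mul_apply, h1, map_smul, pow_succ, Module.End.mul_apply, hs.e_zero,
      map_zero, smul_zero, LinearMap.zero_apply]
  · obtain ⟨k, rfl⟩ : ∃ k, n = k + 1 := ⟨n - 1, by omega⟩
    rw [pow_succ, Module.End.mul_apply, (hs.kill r hr).1, map_zero, LinearMap.zero_apply]

include hs in
theorem Kj_eq (j : ℕ) (hj : 1 ≤ j) (hjD : j ≤ D) : Kj e j = Submodule.span K {x 0} := by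
  refine le_antisymm ?_ ?_
  · intro y hy
    obtain ⟨h1, u, hu⟩ := mem_Kj.1 hy
    have h2 : pR ω D x y = 0 := by
      obtain ⟨k, rfl⟩ : ∃ k, j = k + 1 := ⟨j - 1, by omega⟩
      rw [← hu, pow_succ', Module.End.mul_apply, pR_e hs]
    have h3 : ∀ i, i < D → ω (x i) y = 0 := by
      intro i hi
      have h4 := hs.ske (x (i + 1)) y
      rw [h1, map_zero, add_zero, hs.e_x, map_smul, LinearMap.smul_apply, smul_eq_mul] at h4
      refine (mul_eq_zero.1 h4).resolve_left ?_
      refine mul_ne_zero (Nat.cast_add_one_ne_zero _) (sub_ne_zero.2 ?_)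
      intro h5
      have := Nat.cast_inj.1 h5
      omega
    rw [Submodule.mem_span_singleton]
    refine ⟨(ω (x (D - 0)) (x 0))⁻¹ * ω (x (D - 0)) y, ?_⟩
    have h4 := dec (ω := ω) (D := D) (x := x) y
    rw [h2, add_zero, pS_apply, Finset.sum_eq_single 0] at h4
    · exact h4.symm
    · intro i hi hi0
      rw [mem_range] at hi
      rw [h3 _ (by omega), mul_zero, zero_smul]
    · intro h5
      exact absurd (mem_range.2 (by omega)) h5
  · rw [Submodule.span_le]
    rintro _ rfl
    obtain ⟨c, hc, h1⟩ := pow_x' hs j hjD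
    refine mem_Kj.2 ⟨hs.e_zero, c⁻¹ • x j, ?_⟩
    rw [map_smul, h1, smul_smul, inv_mul_cancel₀ hc, one_smul]

include hs in
theorem Kj_bot (j : ℕ) (hjD : D < j) : Kj e j = ⊥ := by
  rw [eq_bot_iff]
  intro y hy
  obtain ⟨-, u, hu⟩ := mem_Kj.1 hy
  rw [pow_top' hs j hjD, LinearMap.zero_apply] at hu
  rw [← hu]
  exact Submodule.zero_mem _

include hs in
theorem typ2_str (hodd : Odd D) {r : T} (hr0 : r ≠ 0) (hr : ∀ i, ω (x i) r = 0) : Typ2 e D where
  odd := hodd
  nil := hs.nil
  one := by
    have hx0 : x 0 ≠ 0 := by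
      intro h0
      apply hs.pair 0 D (by omega)
      rw [h0, map_zero, LinearMap.zero_apply]
    rw [Kj_eq hs D hs.pos le_rfl, Kj_bot hs (D + 1) (Nat.lt_succ_self D), finrank_bot,
      finrank_span_singleton hx0]
  even := by
    intro j h2 hj
    rcases Nat.lt_trichotomy j D with h1 | h1 | h1
    · rw [Kj_eq hs j (by omega) (by omega), Kj_eq hs (j + 1) (by omega) (by omega)]
    · exfalso
      rw [h1] at hj
      exact (Nat.not_even_iff_odd.2 hodd) hj
    · rw [Kj_bot hs j h1, Kj_bot hs (j + 1) (by omega)]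
  triv := by
    intro h0
    have h1 : r ∈ Kj e 0 := mem_Kj.2 ⟨(hs.kill r hr).1, r, by rw [pow_zero]; rfl⟩
    rw [h0, Kj_eq hs 1 le_rfl hs.pos, Submodule.mem_span_singleton] at h1
    obtain ⟨c, rfl⟩ := h1
    have h2 := hr D
    rw [map_smul, smul_eq_mul] at h2
    have h3 := (mul_eq_zero.1 h2).resolve_right (hs.pair D 0 (by omega))
    rw [h3, zero_smul] at hr0
    exact hr0 rfl

end typ

/-- **The whole Lie algebra of the form.** -/
theorem all_TT [IsAlgClosed K] {s : ℤ} (hs : s = 1 ∨ s = -1)
    (hsym : ∀ u v, ω u v = (s : K) * ω v u) (hnd : ∀ u, (∀ v, ω u v = 0) → u = 0)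
    (hω : ∀ g u v, ω (R g u) (R g v) = μ g * ω u v)
    (hSI : ∀ Δ : Subgroup Γ, Δ.FiniteIndex → ∀ U : Submodule K T,
      (∀ g ∈ Δ, ∀ u ∈ U, R g u ∈ U) → U = ⊥ ∨ U = ⊤)
    (hconj : ∀ g : Γ, ∀ Y ∈ L, R g * Y * R g⁻¹ ∈ L)
    (hbr : ∀ Y ∈ L, ∀ Z ∈ L, Y * Z - Z * Y ∈ L)
    (hsk : ∀ Y ∈ L, ∀ u v, ω (Y u) v + ω u (Y v) = 0)
    {e : End K T} (heL : e ∈ L) (hen : IsNilpotent e) (hD : 0 < D)
    (hr : finrank K (LinearMap.range e) = D) (heD : e ^ D ≠ 0) (hcond : Cond s D R) :
    (∃ (h f : End K T) (x : ℕ → T), h ∈ L ∧ f ∈ L ∧ Str ω e h f D x) ∧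
    ∀ u v, TT ω (s : K) u v ∈ L := by
  have hnd' : ∀ v, (∀ u, ω u v = 0) → v = 0 := by
    intro v hv
    apply hnd
    intro u
    rw [hsym, hv, mul_zero]
  have hT : ∃ v : T, v ≠ 0 := by
    by_contra hcon
    push Not at hcon
    exact heD (LinearMap.ext fun v => by rw [hcon v, map_zero, map_zero])
  have hSI' : Pool.Agent.TH125.Gal.SI (K := K) (T := T) R := hSI
  have hX := Pool.Agent.TH118.SG.SI_conv hT hSI'
  obtain ⟨f₁, hf₁, hf2⟩ := jm hbr (fun y hy h => trace_nondeg (R := R) hconj hbr hX hnd hsk hy h)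
    heL hen
  obtain ⟨h, hh₁⟩ : ∃ h, h = ad K e f₁ := ⟨_, rfl⟩
  have hhe : ad K h e = (2 : K) • e := by
    have h1 : ad K h e = -ad K e h := by rw [ad_apply, ad_apply]; abel
    rw [h1, hh₁, hf2, neg_smul, neg_neg]
  obtain ⟨f, hf, hh, hhf⟩ := exists_f hh₁ hhe hbr heL hf₁ hen
  have hhL : h ∈ L := by rw [hh]; exact hbr e heL f hf
  obtain ⟨x, hst⟩ := exists_str hnd hh hhe hhf hen (hsk e heL) (hsk h hhL) (hsk f hf) hD hr heD
  refine ⟨⟨h, f, x, hhL, hf, hst⟩, ?_⟩
  have hirr := irr_of_si hst heL hf hnd hnd' hsk hconj hω hSI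
  obtain ⟨hc1, hc2, hc3⟩ := hcond
  by_cases hR : ∀ r, (∀ i, ω (x i) r = 0) → r = 0
  · -- only one block
    have hdim := finrank_str hst hR
    have hp := prin_of_str hst hR
    have hnh : -h ∈ L := L.neg_mem hhL
    have hnhs : ∀ u v, ω ((-h) u) v + ω u ((-h) v) = 0 := hsk _ hnh
    have hne : (∃ g : Γ, ∀ c a : K, (R g).charpoly ≠
        ∏ i ∈ range (finrank K T), (Polynomial.X - Polynomial.C (c * a ^ i))) →
        ¬ L ≤ Submodule.span K {f, -h, e} := by
      rintro ⟨g, hg⟩ hle
      have hge : Submodule.span K {f, -h, e} ≤ L := by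
        rw [Submodule.span_le]
        intro X hX
        rcases hX with rfl | rfl | rfl
        · exact hf
        · exact hnh
        · exact heL
      obtain ⟨x', y', c, v', h1, h2, h3⟩ := hp.exists_nilp hD (g := R g) (g' := R g⁻¹)
        (by rw [← map_mul, inv_mul_cancel, map_one]) (fun X hX => hle (hconj g X (hge hX)))
      obtain ⟨a, ha⟩ := charpoly_geom h1 h2 hdim h3
      rw [hdim] at hg
      exact hg a c ha
    have hall : ∀ i j, i ≤ D → j ≤ D → TT ω (s : K) (x i) (x j) ∈ L := by
      intro i j hi hj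
      rcases hs with rfl | rfl
      · have hsym' : ∀ u v, ω u v = ω v u := by
          intro u v
          rw [hsym, Int.cast_one, one_mul]
        have hev := even_of_sym hst hsym'
        rw [Int.cast_one]
        rcases hc1 rfl hdim with h1 | ⟨h1, h2⟩
        · exact Pool.Agent.Helper2.MU.full_sym hp (hsk f hf) hnhs hnd hbr hsk hsym' hev (by omega)
            hf hnh heL (Or.inl h1) hi hj
        · exact Pool.Agent.Helper2.MU.full_sym hp (hsk f hf) hnhs hnd hbr hsk hsym' hev h1
            hf hnh heL (Or.inr (hne h2)) hi hj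
      · have halt : ∀ v, ω v v = 0 := by
          intro v
          have h1 := hsym v v
          rw [Int.cast_neg, Int.cast_one] at h1
          have h2 : (2 : K) * ω v v = 0 := by linear_combination h1
          exact (mul_eq_zero.1 h2).resolve_left two_ne_zero
        have htop : f ^ D ∈ L := by
          rcases hc3 rfl hdim with h1 | h1
          · rw [show D = 1 by omega, pow_one]
            exact hf
          · obtain ⟨k', hk2, hkD, hkL⟩ := hp.exists_pow (hsk f hf) hnhs hnd hbr hsk hD hf hnh
              (hne h1)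
            exact hp.top_of_pow (hsk f hf) hnhs hnd halt hbr hsk heL hk2 hkD hkL
        have h1 := hp.full_of_top (hsk f hf) hnhs (hsk e heL) hnd halt hbr heL htop hsk (x i) (x j)
        have h2 : TT ω ((-1 : ℤ) : K) (x i) (x j) = SS ω (x i) (x j) := by
          ext z
          rw [TT_apply, SS_apply, Int.cast_neg, Int.cast_one]
          module
        rw [h2]
        exact h1
    intro u v
    obtain ⟨cu, hcu⟩ := hp.span u
    obtain ⟨cv, hcv⟩ := hp.span v
    have hsum : TT ω (s : K) u v = ∑ i ∈ range (D + 1), ∑ j ∈ range (D + 1),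
        (cu i * cv j) • TT ω (s : K) (x i) (x j) := by
      refine LinearMap.ext fun z => ?_
      rw [LinearMap.sum_apply]
      simp only [LinearMap.sum_apply, LinearMap.smul_apply, TT_apply]
      have h1 : ω u z = ∑ i ∈ range (D + 1), cu i * ω (x i) z := by
        rw [hcu, map_sum, LinearMap.sum_apply]
        simp only [map_smul, LinearMap.smul_apply, smul_eq_mul]
      have h2 : ω v z = ∑ i ∈ range (D + 1), cv i * ω (x i) z := by
        rw [hcv, map_sum, LinearMap.sum_apply]
        simp only [map_smul, LinearMap.smul_apply, smul_eq_mul]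
      rw [h1, h2]
      conv_lhs => rw [hcu, hcv]
      simp only [smul_sub, Finset.sum_sub_distrib, smul_smul]
      congr 1
      · rw [Finset.sum_smul]
        refine sum_congr rfl fun i _ => ?_
        rw [Finset.smul_sum]
        refine sum_congr rfl fun j _ => ?_
        rw [smul_smul]
        congr 1
        ring
      · rw [Finset.smul_sum]
        refine sum_congr rfl fun i _ => ?_
        rw [smul_smul, Finset.mul_sum, Finset.sum_mul, Finset.sum_smul]
        refine sum_congr rfl fun j _ => ?_
        congr 1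
        ring
    rw [hsum]
    refine L.sum_mem fun i hi => L.sum_mem fun j hj => L.smul_mem _ (hall i j ?_ ?_)
    · rw [mem_range] at hi
      omega
    · rw [mem_range] at hj
      omega
  · push Not at hR
    obtain ⟨r, hr1, hr0⟩ := hR
    have hdim := finrank_ge hst hr0 hr1
    rcases hs with rfl | rfl
    · have hsym' : ∀ u v, ω u v = ω v u := by
        intro u v
        rw [hsym, Int.cast_one, one_mul]
      obtain ⟨d, hd⟩ := even_of_sym hst hsym'
      have hd2 : D = 2 * d := by omega
      subst hd2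
      have hc : Ctx ω L e h f d x := ⟨hst, hsym', hnd, hbr, hsk, hirr, heL, hhL, hf⟩
      intro u v
      have h1 := full_orth hc ⟨r, hr0, hr1⟩ (by
        rcases Nat.lt_or_ge (finrank K T) (2 * d + 3) with h2 | h2
        · rcases hc2 rfl (by omega) with h3 | h3
          · left
            obtain ⟨k, hk⟩ := h3
            exact ⟨k, by omega⟩
          · right; left
            omega
        · exact Or.inr (Or.inr h2)) u v
      rw [tt_eq] at h1
      rw [Int.cast_one]
      exact h1
    · have halt : ∀ v, ω v v = 0 := by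
        intro v
        have h1 := hsym v v
        rw [Int.cast_neg, Int.cast_one] at h1
        have h2 : (2 : K) * ω v v = 0 := by linear_combination h1
        exact (mul_eq_zero.1 h2).resolve_left two_ne_zero
      have hodd : Odd D := by
        by_contra hev
        rw [Nat.not_odd_iff_even] at hev
        have h3 : ∀ i j, i + j = D → ω (x i) (x j) = (-1) ^ i * ω (x 0) (x D) := by
          intro i
          induction i with
          | zero =>
            intro j hj
            rw [show j = D by omega, pow_zero, one_mul]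
          | succ i ih =>
            intro j hj
            have h1 := hst.skf (x i) (x j)
            rw [hst.f_x, hst.f_x, ih (j + 1) (by omega)] at h1
            rw [pow_succ]
            linear_combination h1
        have h1 := h3 D 0 (by omega)
        rw [hev.neg_one_pow, one_mul, hsym, Int.cast_neg, Int.cast_one] at h1
        have h2 : (2 : K) * ω (x 0) (x D) = 0 := by linear_combination -h1
        exact hst.pair 0 D (by omega) ((mul_eq_zero.1 h2).resolve_left two_ne_zero)
      intro u v
      have h1 := full_of_typ2 (R := R) (χ := μ) halt hnd hω hconj hbr hsk hX heL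
        (typ2_str hst hodd hr0 hr1) u v
      have h2 : TT ω ((-1 : ℤ) : K) u v = SS ω u v := by
        ext z
        rw [TT_apply, SS_apply, Int.cast_neg, Int.cast_one]
        module
      rw [h2]
      exact h1

end Pool.Agent.Helper85.SJ
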