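import Pool.Agent.Helper85.SJ.Pair

/-!
# Ideals that contain a long iterated commutator
-/

set_option linter.unusedSectionVars false
set_option autoImplicit false

namespace Pool.Agent.Helper85.SJ

open Module Finset Function Pool.Agent.Y126.JB Pool.Agent.V1141.OF

section desc

variable {K : Type} [Field K] [CharZero K] {T : Type} [AddCommGroup T] [Module K T]
  {ω : T →ₗ[K] T →ₗ[K] K} {e h f : End K T} {D : ℕ} {x : ℕ → T}

/-- Weights of the iterated commutators. -/
theorem h_pow (hs : Str ω e h f D x) {X : End K T} {μ : ℕ} (hX : ad K h X = (-(μ : K)) • X) (j : ℕ) :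
    ad K h ((ad K e ^ j) X) = (2 * (j : K) - μ) • (ad K e ^ j) X := by
  induction j with
  | zero =>
    rw [pow_zero, Module.End.one_apply, hX, Nat.cast_zero]
    congr 1
    ring
  | succ j ih =>
    rw [pow_succ', Module.End.mul_apply]
    obtain ⟨Y, hY⟩ : ∃ Y, Y = (ad K e ^ j) X := ⟨_, rfl⟩
    rw [← hY] at ih ⊢
    have h1 : ad K h (ad K e Y) = ad K e (ad K h Y) + ad K (ad K h e) Y := by
      simp only [ad_apply]
      noncomm_ring
    rw [h1, ih, hs.he, map_smul]
    have h2 : ad K ((2 : K) • e) Y = (2 : K) • ad K e Y := by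
      simp only [ad_apply, smul_mul_assoc, mul_smul_comm, smul_sub]
    rw [h2, ← add_smul]
    congr 1
    push_cast
    ring

theorem f_pow (hs : Str ω e h f D x) {X : End K T} {μ : ℕ} (hX : ad K h X = (-(μ : K)) • X)
    (hf : ad K f X = 0) (j : ℕ) :
    ad K f ((ad K e ^ (j + 1)) X) = (((j : K) + 1) * ((μ : K) - j)) • (ad K e ^ j) X := by
  have key : ∀ Y : End K T, ad K f (ad K e Y) = ad K e (ad K f Y) - ad K h Y := by
    intro Y
    rw [hs.ef]
    simp only [ad_apply]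
    noncomm_ring
  induction j with
  | zero =>
    rw [zero_add, pow_one, pow_zero, Module.End.one_apply, key, hf, map_zero, hX, zero_sub,
      neg_smul, neg_neg, Nat.cast_zero]
    congr 1
    ring
  | succ j ih =>
    rw [pow_succ', Module.End.mul_apply, key, ih, h_pow hs hX, map_smul, pow_succ' _ j,
      Module.End.mul_apply, ← sub_smul]
    congr 1
    push_cast
    ring

/-- From an iterated commutator of a vector of lowest weight back to the vector. -/
theorem desc (hs : Str ω e h f D x) {𝔞 : Submodule K (End K T)} (hf𝔞 : ∀ Y ∈ 𝔞, ad K f Y ∈ 𝔞)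
    {X : End K T} {μ : ℕ} (hX : ad K h X = (-(μ : K)) • X) (hf : ad K f X = 0) (n : ℕ) (hn : n ≤ μ)
    (hmem : (ad K e ^ n) X ∈ 𝔞) : X ∈ 𝔞 := by
  induction n with
  | zero => exact hmem
  | succ n ih =>
    refine ih (by omega) ?_
    have h1 := hf𝔞 _ hmem
    rw [f_pow hs hX hf] at h1
    have h2 : ((n : K) + 1) * ((μ : K) - n) ≠ 0 := by
      refine mul_ne_zero (Nat.cast_add_one_ne_zero _) (sub_ne_zero.2 ?_)
      intro h4
      have := Nat.cast_inj.1 h4
      omega
    exact (Submodule.smul_mem_iff _ h2).1 h1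

/-- Nilpotent operators have nilpotent commutators. -/
theorem ad_nil {A : Type} [Ring A] [Algebra K A] {E : A} {c : ℕ} (hE : E ^ c = 0) (n : ℕ)
    (hn : 2 * c ≤ n + 1) : ad K E ^ n = 0 := by
  obtain ⟨P, hP⟩ : ∃ P : Module.End K A, P = LinearMap.mulLeft K E := ⟨_, rfl⟩
  obtain ⟨Q, hQ⟩ : ∃ Q : Module.End K A, Q = LinearMap.mulRight K E := ⟨_, rfl⟩
  have h0 : Commute P Q := by
    rw [hP, hQ]
    refine LinearMap.ext fun y => ?_
    change E * (y * E) = E * y * E
    rw [mul_assoc]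
  have h1 : Commute P (-Q) := h0.neg_right
  have h2 : P ^ c = 0 := by
    rw [hP, LinearMap.pow_mulLeft, hE]
    refine LinearMap.ext fun y => ?_
    change 0 * y = 0
    rw [zero_mul]
  have h3 : (-Q) ^ c = 0 := by
    have h5 : Q ^ c = 0 := by
      rw [hQ, LinearMap.pow_mulRight, hE]
      refine LinearMap.ext fun y => ?_
      rw [LinearMap.mulRight_apply, mul_zero, LinearMap.zero_apply]
    refine (neg_pow Q c).trans ?_
    rw [h5, mul_zero]
  have h4 := h1.add_pow_eq_zero_of_add_le_succ_of_pow_eq_zero h2 h3 (k := n) (by omega)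
  rw [← sub_eq_add_neg, hP, hQ] at h4
  exact h4

end desc

section ideal

variable {K : Type} [Field K] [CharZero K] {T : Type} [AddCommGroup T] [Module K T]
  [FiniteDimensional K T] {ω : T →ₗ[K] T →ₗ[K] K} {L 𝔞 : Submodule K (End K T)}

/-- **Ideals, symmetric case.** -/
theorem ideal_orth (hsym : ∀ u v, ω u v = ω v u) (htt : ∀ a b, tt ω a b ∈ L)
    (hid : ∀ X ∈ L, ∀ Y ∈ 𝔞, X * Y - Y * X ∈ 𝔞)
    {u v a u' a' p : T} (huv : ω u v = 0) (hau : ω a u ≠ 0) (hav : ω a v = 0)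
    (hu'v : ω u' v = 0) (hu'u : ω u' u = 0) (hau' : ω a u' = 0) (ha'u' : ω a' u' ≠ 0)
    (ha'v : ω a' v = 0) (hp : ω p v = 1) (hmem : tt ω u v ∈ 𝔞) : ∀ b c, tt ω b c ∈ 𝔞 := by
  have hsk := tt_skew hsym (ω := ω)
  have add1 : ∀ b b' c : T, tt ω (b + b') c = tt ω b c + tt ω b' c := by
    intro b b' c
    refine LinearMap.ext fun z => ?_
    rw [LinearMap.add_apply, tt_apply, tt_apply, tt_apply, map_add, LinearMap.add_apply]
    module
  have sm1 : ∀ (r : K) (b c : T), tt ω (r • b) c = r • tt ω b c := by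
    intro r b c
    refine LinearMap.ext fun z => ?_
    rw [LinearMap.smul_apply, tt_apply, tt_apply, map_smul, LinearMap.smul_apply, smul_eq_mul]
    module
  have add2 : ∀ b c c' : T, tt ω b (c + c') = tt ω b c + tt ω b c' := by
    intro b c c'
    rw [tt_swap, add1, tt_swap b c, tt_swap b c']
    abel
  have sm2 : ∀ (r : K) (b c : T), tt ω b (r • c) = r • tt ω b c := by
    intro r b c
    rw [tt_swap, sm1, tt_swap b c, smul_neg]
  -- the bracket
  have br : ∀ b c y z : T, tt ω y z ∈ 𝔞 →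
      ω b y • tt ω c z - ω c y • tt ω b z + (ω b z • tt ω y c - ω c z • tt ω y b) ∈ 𝔞 := by
    intro b c y z hyz
    have h1 := hid _ (htt b c) _ hyz
    rw [tt_br (hsk b c), tt_apply, tt_apply, sub_eq_add_neg, sub_eq_add_neg, add1, add2, ← neg_smul,
      ← neg_smul, sm1, sm1, sm2, sm2, neg_smul, neg_smul, ← sub_eq_add_neg, ← sub_eq_add_neg] at h1
    exact h1
  -- step 1
  have s1 : ∀ (u a w : T), ω a v = 0 → tt ω u v ∈ 𝔞 → ω w v = 0 →
      ω w u • tt ω a v - ω a u • tt ω w v ∈ 𝔞 := by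
    intro u a w hav hm hw
    have h1 := br w a u v hm
    rw [hw, hav, zero_smul, zero_smul, sub_zero, add_zero] at h1
    exact h1
  have hu' : tt ω u' v ∈ 𝔞 := by
    have h1 := s1 u a u' hav hmem hu'v
    rw [hu'u, zero_smul, zero_sub, Submodule.neg_mem_iff] at h1
    exact (Submodule.smul_mem_iff _ hau).1 h1
  have ha : tt ω a v ∈ 𝔞 := by
    have h1 := s1 u' a' a ha'v hu' hav
    rw [hau', zero_smul, zero_sub, Submodule.neg_mem_iff] at h1
    exact (Submodule.smul_mem_iff _ ha'u').1 h1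
  have s2 : ∀ w, ω w v = 0 → tt ω w v ∈ 𝔞 := by
    intro w hw
    have h1 := s1 u a w hav hmem hw
    have h2 := 𝔞.sub_mem (𝔞.smul_mem (ω w u) ha) h1
    rw [sub_sub_cancel] at h2
    exact (Submodule.smul_mem_iff _ hau).1 h2
  -- step 2
  have hpv : tt ω p v ∈ 𝔞 := by
    have h1 : ∀ q w, ω q v = 0 → ω w v = 0 → tt ω q w - ω w q • tt ω p v ∈ 𝔞 := by
      intro q w hq hw
      have h1 := br p w q v (s2 q hq)
      rw [hp, hw, one_smul, zero_smul, sub_zero] at h1
      have h2 := 𝔞.sub_mem h1 (𝔞.smul_mem (ω p q) (s2 w hw))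
      have h3 : ω p q • tt ω w v - ω w q • tt ω p v + tt ω q w - ω p q • tt ω w v =
          tt ω q w - ω w q • tt ω p v := by abel
      rwa [h3] at h2
    have h2 := 𝔞.add_mem (h1 a u hav huv) (h1 u a huv hav)
    rw [tt_swap a u, hsym u a] at h2
    have h3 : -tt ω u a - ω a u • tt ω p v + (tt ω u a - ω a u • tt ω p v) =
        (-(2 * ω a u)) • tt ω p v := by module
    rw [h3] at h2
    exact (Submodule.smul_mem_iff _ (neg_ne_zero.2 (mul_ne_zero two_ne_zero hau))).1 h2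
  have s3 : ∀ w, tt ω w v ∈ 𝔞 := by
    intro w
    have h1 : w = ω w v • p + (w - ω w v • p) := by abel
    rw [h1, add1, sm1]
    refine 𝔞.add_mem (𝔞.smul_mem _ hpv) (s2 _ ?_)
    rw [map_sub, map_smul, LinearMap.sub_apply, LinearMap.smul_apply, smul_eq_mul, hp, mul_one,
      sub_self]
  -- step 3
  have s4 : ∀ w b, ω b v = 0 → tt ω w b ∈ 𝔞 := by
    intro w b hb
    have h1 := br p b w v (s3 w)
    rw [hp, hb, one_smul, zero_smul, sub_zero] at h1
    have h2 := 𝔞.sub_mem h1 (𝔞.sub_mem (𝔞.smul_mem (ω p w) (s3 b)) (𝔞.smul_mem (ω b w) (s3 p)))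
    rwa [add_sub_cancel_left] at h2
  intro b c
  have h1 : c = ω c v • p + (c - ω c v • p) := by abel
  have h2 : b = ω b v • p + (b - ω b v • p) := by abel
  have h3 : ∀ y, ω (y - ω y v • p) v = 0 := by
    intro y
    rw [map_sub, map_smul, LinearMap.sub_apply, LinearMap.smul_apply, smul_eq_mul, hp, mul_one,
      sub_self]
  rw [h1, add2]
  refine 𝔞.add_mem ?_ (s4 _ _ (h3 c))
  rw [sm2]
  refine 𝔞.smul_mem _ ?_
  rw [h2, add1, sm1, tt_self, smul_zero, zero_add, tt_swap]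
  exact 𝔞.neg_mem (s4 _ _ (h3 b))

/-- **Ideals, alternating case.** -/
theorem ideal_sp (hsk : ∀ Y ∈ L, ∀ u v, ω (Y u) v + ω u (Y v) = 0)
    (htt : ∀ a b, TT ω (-1 : K) a b ∈ L)
    (hid : ∀ X ∈ L, ∀ Y ∈ 𝔞, X * Y - Y * X ∈ 𝔞)
    {v p : T} (hp : ω p v = 1) (hmem : TT ω (-1 : K) v v ∈ 𝔞) :
    ∀ b c, TT ω (-1 : K) b c ∈ 𝔞 := by
  have sw : ∀ b c : T, TT ω (-1 : K) b c = TT ω (-1 : K) c b := by
    intro b c
    refine LinearMap.ext fun z => ?_
    rw [TT_apply, TT_apply]
    module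
  have add1 : ∀ b b' c : T, TT ω (-1 : K) (b + b') c = TT ω (-1 : K) b c + TT ω (-1 : K) b' c := by
    intro b b' c
    refine LinearMap.ext fun z => ?_
    rw [LinearMap.add_apply, TT_apply, TT_apply, TT_apply, map_add, LinearMap.add_apply]
    module
  have sm1 : ∀ (r : K) (b c : T), TT ω (-1 : K) (r • b) c = r • TT ω (-1 : K) b c := by
    intro r b c
    refine LinearMap.ext fun z => ?_
    rw [LinearMap.smul_apply, TT_apply, TT_apply, map_smul, LinearMap.smul_apply, smul_eq_mul]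
    module
  have add2 : ∀ b c c' : T, TT ω (-1 : K) b (c + c') = TT ω (-1 : K) b c + TT ω (-1 : K) b c' := by
    intro b c c'
    rw [sw, add1, sw b c, sw b c']
  have sm2 : ∀ (r : K) (b c : T), TT ω (-1 : K) b (r • c) = r • TT ω (-1 : K) b c := by
    intro r b c
    rw [sw, sm1, sw b c]
  have br : ∀ b c y z : T, TT ω (-1 : K) y z ∈ 𝔞 →
      ω b y • TT ω (-1 : K) c z + ω c y • TT ω (-1 : K) b z +
        (ω b z • TT ω (-1 : K) y c + ω c z • TT ω (-1 : K) y b) ∈ 𝔞 := by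
    intro b c y z hyz
    have h1 := hid _ (htt b c) _ hyz
    rw [TT_bracket ω (hsk _ (htt b c)), TT_apply, TT_apply, sub_eq_add_neg, sub_eq_add_neg, add1,
      add2, ← neg_smul, ← neg_smul, sm1, sm1, sm2, sm2, neg_mul, neg_mul, neg_neg, neg_neg, one_mul,
      one_mul] at h1
    exact h1
  have hpv : TT ω (-1 : K) p v ∈ 𝔞 := by
    have h1 := br p p v v hmem
    rw [hp, one_smul, one_smul, sw v p] at h1
    have h2 : TT ω (-1 : K) p v + TT ω (-1 : K) p v + (TT ω (-1 : K) p v + TT ω (-1 : K) p v) =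
        (4 : K) • TT ω (-1 : K) p v := by module
    rw [h2] at h1
    exact (Submodule.smul_mem_iff _ (by norm_num : (4 : K) ≠ 0)).1 h1
  have s1 : ∀ w, TT ω (-1 : K) w v ∈ 𝔞 := by
    intro w
    have h1 := br p w v v hmem
    rw [hp, one_smul, one_smul, sw v w, sw v p] at h1
    have h2 := 𝔞.sub_mem h1 (𝔞.smul_mem (2 * ω w v) hpv)
    have h3 : TT ω (-1 : K) w v + ω w v • TT ω (-1 : K) p v + (TT ω (-1 : K) w v +
        ω w v • TT ω (-1 : K) p v) - (2 * ω w v) • TT ω (-1 : K) p v =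
        (2 : K) • TT ω (-1 : K) w v := by module
    rw [h3] at h2
    exact (Submodule.smul_mem_iff _ two_ne_zero).1 h2
  have s2 : ∀ w b, TT ω (-1 : K) w b + ω b v • TT ω (-1 : K) w p ∈ 𝔞 := by
    intro w b
    have h1 := br p b w v (s1 w)
    rw [hp, one_smul] at h1
    have h2 := 𝔞.sub_mem h1 (𝔞.add_mem (𝔞.smul_mem (ω p w) (s1 b)) (𝔞.smul_mem (ω b w) (s1 p)))
    rwa [add_sub_cancel_left] at h2
  have s3 : ∀ w, TT ω (-1 : K) w p ∈ 𝔞 := by
    intro w
    have h1 := s2 w p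
    rw [hp, one_smul, ← two_smul K] at h1
    exact (Submodule.smul_mem_iff _ two_ne_zero).1 h1
  intro b c
  have h1 := 𝔞.sub_mem (s2 b c) (𝔞.smul_mem (ω c v) (s3 b))
  rwa [add_sub_cancel_right] at h1

end ideal

end Pool.Agent.Helper85.SJ
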