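import Pool.Agent.Helper85.SJ.Full
import Pool.Graph.R_seed8.TH118.SG.Group

/-!
# Irreducibility of a Lie algebra with an element with one nontrivial Jordan block
-/

set_option linter.unusedSectionVars false
set_option autoImplicit false

namespace Pool.Agent.Helper85.SJ

open Module Finset Pool.Agent.Y126.JB Pool.Agent.V1141.OF

variable {K : Type} [Field K] [CharZero K] {T : Type} [AddCommGroup T] [Module K T]
  [FiniteDimensional K T] {ω : T →ₗ[K] T →ₗ[K] K} {e h f : End K T} {D : ℕ} {x : ℕ → T}
  {L : Submodule K (End K T)} {Γ : Type} [Group Γ] {R : Representation K Γ T} {c : Γ → K}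

/-- stable subspaces -/
def Stab (L : Submodule K (End K T)) (U : Submodule K T) : Prop := ∀ Y ∈ L, ∀ u ∈ U, Y u ∈ U

/-- A stable subspace contains the string or is orthogonal to it. -/
theorem dicho (hs : Str ω e h f D x) (heL : e ∈ L) (hfL : f ∈ L) {U : Submodule K T}
    (hU : Stab L U) : x 0 ∈ U ∨ ∀ u ∈ U, ∀ i, ω (x i) u = 0 := by
  classical
  by_contra hcon
  push Not at hcon
  obtain ⟨h0, u, hu, i, hi⟩ := hcon
  apply h0
  have hpos := hs.pos
  -- the coefficients
  obtain ⟨a, ha⟩ : ∃ a : ℕ → K, a = fun j => (ω (x (D - j)) (x j))⁻¹ * ω (x (D - j)) u := ⟨_, rfl⟩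
  have hdec : u = ∑ j ∈ range (D + 1), a j • x j + pR ω D x u := by
    rw [ha]
    conv_lhs => rw [dec (ω := ω) (D := D) (x := x) u, pS_apply]
  have hiD : i ≤ D := by
    by_contra hcon
    apply hi
    rw [hs.zero i (by omega), map_zero, LinearMap.zero_apply]
  have hex : ∃ j, j ≤ D ∧ a j ≠ 0 := by
    refine ⟨D - i, by omega, ?_⟩
    rw [ha]
    change (ω (x (D - (D - i))) (x (D - i)))⁻¹ * ω (x (D - (D - i))) u ≠ 0
    rw [show D - (D - i) = i by omega]
    exact mul_ne_zero (inv_ne_zero (hs.pair i (D - i) (by omega))) hi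
  -- the largest one
  obtain ⟨k, ⟨hkD, hk⟩, hmax⟩ : ∃ k, (k ≤ D ∧ a k ≠ 0) ∧ ∀ j, k < j → j ≤ D → a j = 0 := by
    obtain ⟨j0, hj0, hj1⟩ := hex
    refine ⟨Nat.findGreatest (fun j => a j ≠ 0) D, ⟨Nat.findGreatest_le D,
      Nat.findGreatest_spec (P := fun j => a j ≠ 0) hj0 hj1⟩, fun j hj hjD => ?_⟩
    by_contra hne
    exact Nat.findGreatest_is_greatest hj hjD hne
  have hpowU : ∀ (n : ℕ) (v : T), v ∈ U → (e ^ n) v ∈ U := by
    intro n
    induction n with
    | zero => intro v hv; exact hv
    | succ n ih =>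
      intro v hv
      rw [pow_succ, Module.End.mul_apply]
      exact ih _ (hU e heL v hv)
  have hpow : ∀ j, j ≤ D → ∃ c : K, c ≠ 0 ∧ (e ^ j) (x j) = c • x 0 := by
    intro j
    induction j with
    | zero => intro _; exact ⟨1, one_ne_zero, by rw [pow_zero, one_smul]; rfl⟩
    | succ j ih =>
      intro hj
      obtain ⟨c, hc, h1⟩ := ih (by omega)
      have h3 : ((j : K) + 1) * ((D : K) - j) ≠ 0 := by
        refine mul_ne_zero (Nat.cast_add_one_ne_zero _) (sub_ne_zero.2 ?_)
        intro h4
        have := Nat.cast_inj.1 h4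
        omega
      refine ⟨((j : K) + 1) * ((D : K) - j) * c, mul_ne_zero h3 hc, ?_⟩
      rw [pow_succ, Module.End.mul_apply, hs.e_x, map_smul, h1, smul_smul]
  have hpow0 : ∀ j n, j < n → j ≤ D → (e ^ n) (x j) = 0 := by
    intro j n hjn hj
    obtain ⟨c, -, h1⟩ := hpow j hj
    obtain ⟨r, rfl⟩ : ∃ r, n = (r + 1) + j := ⟨n - j - 1, by omega⟩
    rw [pow_add, Module.End.mul_apply, h1, map_smul, pow_succ, Module.End.mul_apply, hs.e_zero,
      map_zero, smul_zero]
  have hR : ∀ n : ℕ, 0 < n → (e ^ n) (pR ω D x u) = 0 := by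
    intro n hn
    obtain ⟨r, rfl⟩ : ∃ r, n = r + 1 := ⟨n - 1, by omega⟩
    rw [pow_succ, Module.End.mul_apply, (hs.kill _ fun i => om_pR hs i u).1, map_zero]
  rcases Nat.eq_zero_or_pos k with hk0 | hk0
  · -- only the first coefficient
    subst hk0
    have h1 : f u = a 0 • x 1 := by
      rw [hdec, map_add, (hs.kill _ fun i => om_pR hs i u).2.2, add_zero, map_sum,
        Finset.sum_eq_single 0]
      · rw [map_smul, hs.f_x]
      · intro j hj hj0
        rw [mem_range] at hj
        rw [hmax j (by omega) (by omega), zero_smul, map_zero]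
      · intro h2
        exact absurd (mem_range.2 (by omega)) h2
    have h2 : e (f u) = (a 0 * D) • x 0 := by
      have h3 := hs.e_x 0
      rw [zero_add, Nat.cast_zero, zero_add, one_mul, sub_zero] at h3
      rw [h1, map_smul, h3, smul_smul]
    have h3 : (a 0 * D) • x 0 ∈ U := by
      rw [← h2]
      exact hU e heL _ (hU f hfL u hu)
    exact (U.smul_mem_iff (mul_ne_zero hk (Nat.cast_ne_zero.2 (by omega)))).1 h3
  · obtain ⟨b, hb, hbk⟩ := hpow k hkD
    have h1 : (e ^ k) u = (a k * b) • x 0 := by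
      rw [hdec, map_add, hR k hk0, add_zero, map_sum, Finset.sum_eq_single k]
      · rw [map_smul, hbk, smul_smul]
      · intro j hj hjk
        rw [mem_range] at hj
        rcases Nat.lt_or_gt_of_ne hjk with h2 | h2
        · rw [map_smul, hpow0 j k h2 (by omega), smul_zero]
        · rw [hmax j h2 (by omega), zero_smul, map_zero]
      · intro h2
        exact absurd (mem_range.2 (by omega)) h2
    have h3 : (a k * b) • x 0 ∈ U := by
      rw [← h1]
      exact hpowU k u hu
    exact (U.smul_mem_iff (mul_ne_zero hk hb)).1 h3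

/-- the orthogonal complement -/
def perp (ω : T →ₗ[K] T →ₗ[K] K) (U : Submodule K T) : Submodule K T where
  carrier := {v | ∀ u ∈ U, ω u v = 0}
  zero_mem' := fun u _ => map_zero _
  add_mem' := fun {a b} ha hb u hu => by rw [map_add, ha u hu, hb u hu, add_zero]
  smul_mem' := fun s a ha u hu => by rw [map_smul, ha u hu, smul_zero]

theorem perp_stab (hsk : ∀ Y ∈ L, ∀ u v, ω (Y u) v + ω u (Y v) = 0) {U : Submodule K T}
    (hU : Stab L U) : Stab L (perp ω U) := by
  intro Y hY v hv u hu
  have h1 := hsk Y hY u v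
  rw [hv _ (hU Y hY u hu), zero_add] at h1
  exact h1

/-- the submodule generated by the string -/
def gen (L : Submodule K (End K T)) (t : T) : Submodule K T :=
  sInf {U | Stab L U ∧ t ∈ U}

theorem gen_stab (t : T) : Stab L (gen L t) := by
  intro Y hY u hu
  rw [gen, Submodule.mem_sInf] at hu ⊢
  intro U hU
  exact hU.1 Y hY u (hu U hU)

theorem mem_gen (t : T) : t ∈ gen L t := by
  rw [gen, Submodule.mem_sInf]
  exact fun U hU => hU.2

theorem gen_le {t : T} {U : Submodule K T} (hU : Stab L U) (ht : t ∈ U) : gen L t ≤ U :=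
  sInf_le ⟨hU, ht⟩

theorem map_stab (hconj : ∀ g : Γ, ∀ Y ∈ L, R g * Y * R g⁻¹ ∈ L) {U : Submodule K T}
    (hU : Stab L U) (g : Γ) : Stab L (U.map (R g)) := by
  rintro Y hY _ ⟨u, hu, rfl⟩
  have h1 := hconj g⁻¹ Y hY
  rw [inv_inv] at h1
  refine ⟨_, hU _ h1 u hu, ?_⟩
  change R g ((R g⁻¹ * Y * R g) u) = Y (R g u)
  rw [Module.End.mul_apply, Module.End.mul_apply, ← Module.End.mul_apply (R g), ← map_mul,
    mul_inv_cancel, map_one, Module.End.one_apply]

/-- **Irreducibility.** -/
theorem irr_of_si (hs : Str ω e h f D x) (heL : e ∈ L) (hfL : f ∈ L)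
    (hnd : ∀ u, (∀ v, ω u v = 0) → u = 0) (hnd' : ∀ v, (∀ u, ω u v = 0) → v = 0)
    (hsk : ∀ Y ∈ L, ∀ u v, ω (Y u) v + ω u (Y v) = 0)
    (hconj : ∀ g : Γ, ∀ Y ∈ L, R g * Y * R g⁻¹ ∈ L)
    (hω : ∀ g u v, ω (R g u) (R g v) = c g * ω u v)
    (hSI : ∀ Δ : Subgroup Γ, Δ.FiniteIndex → ∀ U : Submodule K T,
      (∀ g ∈ Δ, ∀ u ∈ U, R g u ∈ U) → U = ⊥ ∨ U = ⊤) :
    ∀ U : Submodule K T, (∀ Y ∈ L, ∀ u ∈ U, Y u ∈ U) → U = ⊥ ∨ U = ⊤ := by
  classical
  obtain ⟨P, hP⟩ : ∃ P, P = gen L (x 0) := ⟨_, rfl⟩
  have hPst : Stab L P := hP ▸ gen_stab (x 0)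
  have hPx : x 0 ∈ P := hP ▸ mem_gen (x 0)
  have hPle : ∀ U : Submodule K T, Stab L U → x 0 ∈ U → P ≤ U := fun U hU h0 => hP ▸ gen_le hU h0
  have hfP : ∀ i, x i ∈ P := by
    intro i
    induction i with
    | zero => exact hPx
    | succ i ih =>
      rw [← hs.f_x]
      exact hPst f hfL _ ih
  have hRinj : ∀ g : Γ, Function.Injective (R g) := by
    intro g a b hab
    have h1 := congrArg (R g⁻¹) hab
    rwa [← Module.End.mul_apply, ← Module.End.mul_apply, ← map_mul, inv_mul_cancel, map_one,
      Module.End.one_apply, Module.End.one_apply] at h1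
  -- the translates
  have htr : ∀ g : Γ, P.map (R g) = P ∨ ∀ p ∈ P, ∀ q ∈ P, ω (R g p) q = 0 := by
    intro g
    have hst := map_stab hconj hPst g
    rcases dicho hs heL hfL hst with h1 | h1
    · left
      refine (Submodule.eq_of_le_of_finrank_eq (hPle _ hst h1) ?_).symm
      exact (LinearEquiv.finrank_eq (Submodule.equivMapOfInjective (R g) (hRinj g) P))
    · right
      have h2 : x 0 ∈ perp ω (P.map (R g)) := by
        -- `ω u (x 0) = 0`: use the invariance under `L`
        intro u hu
        by_contra hne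
        -- the orthogonal complement of `x 0` on the other side
        have hst' : Stab L (perp (LinearMap.flip ω) (P.map (R g))) := by
          intro Y hY v hv w hw
          have h3 := hsk Y hY v w
          have h4 : ω v (Y w) = 0 := hv _ (hst Y hY w hw)
          rw [h4, add_zero] at h3
          exact h3
        have h3 : x 0 ∈ perp (LinearMap.flip ω) (P.map (R g)) := fun w hw => h1 w hw 0
        have h4 := hPle _ hst' h3
        -- dimension argument is not needed: the form is nondegenerate on the string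
        have h5 : ∀ i, ω (x i) u = 0 := fun i => h1 u hu i
        have h6 := (hs.kill u h5).1
        have h7 := hs.ske u (x 1)
        have h8 := hs.e_x 0
        rw [zero_add, Nat.cast_zero, zero_add, one_mul, sub_zero] at h8
        rw [h6, map_zero, LinearMap.zero_apply, zero_add, h8, map_smul] at h7
        exact hne ((smul_eq_zero.1 h7).resolve_left (Nat.cast_ne_zero.2 (by
          have := hs.pos
          omega)))
      have h3 := hPle _ (perp_stab hsk hst) h2
      intro p hp q hq
      exact h3 hq _ ⟨p, hp, rfl⟩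
  -- the stabiliser
  let Δ : Subgroup Γ :=
    { carrier := {g | P.map (R g) = P}
      one_mem' := by
        change P.map (R 1) = P
        rw [map_one]
        exact Submodule.map_id P
      mul_mem' := by
        intro a b ha hb
        change P.map (R (a * b)) = P
        have ha' : P.map (R a) = P := ha
        have hb' : P.map (R b) = P := hb
        rw [map_mul]
        have h1 : P.map (R a * R b) = (P.map (R b)).map (R a) := Submodule.map_comp (R b) (R a) P
        rw [h1, hb', ha']
      inv_mem' := by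
        intro a ha
        have ha' : P.map (R a) = P := ha
        change P.map (R a⁻¹) = P
        have h1 : P.map (R a⁻¹ * R a) = (P.map (R a)).map (R a⁻¹) :=
          Submodule.map_comp (R a) (R a⁻¹) P
        rw [ha', ← map_mul, inv_mul_cancel, map_one] at h1
        rw [← h1]
        exact Submodule.map_id P }
  have hcg : ∀ g, c g ≠ 0 := by
    intro g h0
    have h1 := hω g (R g⁻¹ (x 0)) (R g⁻¹ (x D))
    rw [h0, zero_mul, ← Module.End.mul_apply, ← Module.End.mul_apply, ← map_mul,
      mul_inv_cancel, map_one, Module.End.one_apply, Module.End.one_apply] at h1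
    exact hs.pair 0 D (by omega) h1
  have hne : ∀ a b : Γ, a⁻¹ * b ∉ Δ → ∀ p ∈ P, ∀ q ∈ P, ω (R b p) (R a q) = 0 := by
    intro a b hab p hp q hq
    have h1 : ∀ p ∈ P, ∀ q ∈ P, ω (R (a⁻¹ * b) p) q = 0 := (htr (a⁻¹ * b)).resolve_left hab
    have h2 := hω a (R (a⁻¹ * b) p) q
    rw [h1 p hp q hq, mul_zero, ← Module.End.mul_apply, ← map_mul, mul_inv_cancel_left] at h2
    exact h2
  have hfin : Finite (Γ ⧸ Δ) := by
    have hli : LinearIndependent K fun q : Γ ⧸ Δ => R q.out (x 0) := by
      rw [linearIndependent_iff']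
      intro s a ha q hq
      have h1 := congrArg (fun v => ω v (R q.out (x D))) ha
      simp only [map_sum, map_smul, LinearMap.sum_apply, LinearMap.smul_apply, map_zero,
        LinearMap.zero_apply] at h1
      rw [Finset.sum_eq_single q] at h1
      · rw [hω, smul_eq_mul] at h1
        exact (mul_eq_zero.1 h1).resolve_right
          (mul_ne_zero (hcg _) (hs.pair 0 D (by omega)))
      · intro q' _ hq'
        rw [hne q.out q'.out ?_ _ hPx _ (hfP D), smul_zero]
        intro h2
        apply hq'
        have h3 : (QuotientGroup.mk q.out : Γ ⧸ Δ) = QuotientGroup.mk q'.out :=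
          QuotientGroup.eq.2 h2
        rw [QuotientGroup.out_eq', QuotientGroup.out_eq'] at h3
        exact h3.symm
      · intro h2
        exact absurd hq h2
    exact hli.finite
  have hΔ : Δ.FiniteIndex := Subgroup.finiteIndex_of_finite_quotient
  have hPΔ : ∀ g ∈ Δ, ∀ u ∈ P, R g u ∈ P := by
    intro g hg u hu
    have h1 : P.map (R g) = P := hg
    rw [← h1]
    exact ⟨u, hu, rfl⟩
  have hPtop : P = ⊤ := by
    rcases hSI Δ hΔ P hPΔ with h1 | h1
    · exfalso
      rw [h1, Submodule.mem_bot] at hPx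
      apply hs.pair 0 D (by omega)
      rw [hPx, map_zero, LinearMap.zero_apply]
    · exact h1
  intro U hU
  rcases dicho hs heL hfL hU with h1 | h1
  · right
    exact top_le_iff.1 (hPtop ▸ hPle U hU h1)
  · left
    -- the other orthogonal complement
    have hst' : Stab L (perp (LinearMap.flip ω) U) := by
      intro Y hY v hv w hw
      have h3 := hsk Y hY v w
      have h4 : ω v (Y w) = 0 := hv _ (hU Y hY w hw)
      rw [h4, add_zero] at h3
      exact h3
    have h3 : x 0 ∈ perp (LinearMap.flip ω) U := fun w hw => h1 w hw 0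
    have h4 := hPle _ hst' h3
    rw [hPtop, top_le_iff] at h4
    rw [eq_bot_iff]
    intro u hu
    rw [Submodule.mem_bot]
    apply hnd'
    intro v
    have h5 : v ∈ perp (LinearMap.flip ω) U := by rw [h4]; exact Submodule.mem_top
    exact h5 u hu

end Pool.Agent.Helper85.SJ
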