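import Pool.Agent.Helper85.SJ.Core

/-!
# The whole orthogonal Lie algebra, from an element with one nontrivial Jordan block
-/

set_option linter.unusedSectionVars false
set_option autoImplicit false

namespace Pool.Agent.Helper85.SJ

open Module Finset Pool.Agent.Y126.JB Pool.Agent.V1141.OF

variable {K : Type} [Field K] [CharZero K] {T : Type} [AddCommGroup T] [Module K T]
  [FiniteDimensional K T] {ω : T →ₗ[K] T →ₗ[K] K} {e h f : End K T} {d : ℕ} {x : ℕ → T}
  {L : Submodule K (End K T)}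

/-- An irreducible Lie algebra `L` of skew operators with the triple `e`, `h`, `f`. -/
structure Ctx (ω : T →ₗ[K] T →ₗ[K] K) (L : Submodule K (End K T)) (e h f : End K T) (d : ℕ)
    (x : ℕ → T) : Prop where
  str : Str ω e h f (2 * d) x
  sym : ∀ u v, ω u v = ω v u
  nd : ∀ u, (∀ v, ω u v = 0) → u = 0
  br : ∀ Y ∈ L, ∀ Z ∈ L, Y * Z - Z * Y ∈ L
  sk : ∀ Y ∈ L, ∀ u v, ω (Y u) v + ω u (Y v) = 0
  irr : ∀ U : Submodule K T, (∀ Y ∈ L, ∀ u ∈ U, Y u ∈ U) → U = ⊥ ∨ U = ⊤
  eL : e ∈ L
  hL : h ∈ L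
  fL : f ∈ L

section inj

/-- `ad e ad f` is injective on the elements of positive weight. -/
theorem ef_inj (hh : h = ad K e f) (hhe : ad K h e = (2 : K) • e) (hen : IsNilpotent e)
    {n : ℕ} (hn : 0 < n) {Z : End K T} (hZ : ad K h Z = (n : K) • Z)
    (h0 : ad K e (ad K f Z) = 0) : Z = 0 := by
  have hh' : ad K h = ad K (ad K e) (ad K f) := by rw [ad_ad, ← hh]
  have hhe' : ad K (ad K h) (ad K e) = (2 : K) • ad K e := by rw [ad_ad, hhe, ad_smul']
  obtain ⟨M, hM⟩ := ad_nilpotent (K := K) hen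
  have hstep : ∀ j : ℕ, (ad K e ^ (j + 1)) Z = 0 → (ad K e ^ j) Z = 0 := by
    intro j hj
    have h1 := LinearMap.congr_fun (e_pow_f hh' hhe' j) Z
    rw [LinearMap.sub_apply, Module.End.mul_apply, Module.End.mul_apply, LinearMap.smul_apply,
      LinearMap.sub_apply, Module.End.mul_apply, LinearMap.smul_apply, hj, map_zero, sub_zero,
      pow_succ, Module.End.mul_apply, h0, map_zero, h_pow_apply hhe' hZ, ← sub_smul,
      smul_smul] at h1
    have h2 : ((j + 1 : ℕ) : K) * ((n : K) + 2 * (j : K) - j) ≠ 0 := by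
      refine mul_ne_zero (Nat.cast_ne_zero.2 (Nat.succ_ne_zero j)) ?_
      have h3 : (n : K) + 2 * (j : K) - j = ((n + j : ℕ) : K) := by
        push_cast
        ring
      rw [h3]
      exact Nat.cast_ne_zero.2 (by omega)
    exact (smul_eq_zero.1 h1.symm).resolve_left h2
  have h1 : ∀ j : ℕ, (ad K e ^ j) Z = 0 → Z = 0 := by
    intro j
    induction j with
    | zero => intro h; exact h
    | succ j ih => intro h; exact ih (hstep j h)
  exact h1 M (by rw [hM]; rfl)

end inj

section main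

variable (hc : Ctx ω L e h f d x)

include hc in
theorem Ctx.dpos : 0 < d := by
  have := hc.str.pos
  omega

/-- weights -/
theorem ad_h_mem (hc : Ctx ω L e h f d x) {Y : End K T} (hY : Y ∈ L) : ad K h Y ∈ L :=
  hc.br h hc.hL Y hY

theorem ad_e_mem (hc : Ctx ω L e h f d x) {Y : End K T} (hY : Y ∈ L) : ad K e Y ∈ L :=
  hc.br e hc.eL Y hY

theorem ad_f_mem (hc : Ctx ω L e h f d x) {Y : End K T} (hY : Y ∈ L) : ad K f Y ∈ L :=
  hc.br f hc.fL Y hY

include hc in
theorem pR_ad_h (Y : End K T) : pR ω (2 * d) x ((ad K h Y) (x (2 * d))) =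
    ((2 * d : ℕ) : K) • pR ω (2 * d) x (Y (x (2 * d))) := by
  rw [ad_apply, LinearMap.sub_apply, Module.End.mul_apply, Module.End.mul_apply, map_sub,
    pR_h hc.str, hc.str.h_x, map_smul, map_smul, zero_sub, ← neg_smul]
  congr 1
  push_cast
  ring

include hc in
theorem pR_ad_f (Y : End K T) : pR ω (2 * d) x ((ad K f Y) (x (2 * d))) = 0 := by
  rw [ad_apply, LinearMap.sub_apply, Module.End.mul_apply, Module.End.mul_apply, map_sub,
    pR_f hc.str, hc.str.f_x, hc.str.zero _ (Nat.lt_succ_self _), map_zero, map_zero, sub_zero]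

include hc in
/-- An element of weight `2 d` with a given component. -/
theorem exists_wt [IsAlgClosed K] {Y : End K T} (hY : Y ∈ L) :
    ∃ Y' ∈ L, ad K h Y' = ((2 * d : ℕ) : K) • Y' ∧
      pR ω (2 * d) x (Y' (x (2 * d))) = pR ω (2 * d) x (Y (x (2 * d))) := by
  have h3 : L = ⨆ c : K, L ⊓ gE (ad K h) c :=
    Submodule.eq_iSup_inf_genEigenspace (f := ad K h) (p := L) ⊤ (fun _ => ad_h_mem hc)
      (Module.End.iSup_maxGenEigenspace_eq_top (ad K h))
  rw [h3] at hY
  refine Submodule.iSup_induction _ (motive := fun Y => ∃ Y' ∈ L,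
    ad K h Y' = ((2 * d : ℕ) : K) • Y' ∧
      pR ω (2 * d) x (Y' (x (2 * d))) = pR ω (2 * d) x (Y (x (2 * d)))) hY ?_ ?_ ?_
  · intro c Z hZ
    have h1 := gE_adh hc.str hZ.2
    by_cases hcd : c = ((2 * d : ℕ) : K)
    · exact ⟨Z, hZ.1, by rw [h1, hcd], rfl⟩
    · refine ⟨0, L.zero_mem, by rw [map_zero, smul_zero], ?_⟩
      have h2 := pR_ad_h hc Z
      rw [h1, LinearMap.smul_apply, map_smul] at h2
      have h4 : (c - ((2 * d : ℕ) : K)) • pR ω (2 * d) x (Z (x (2 * d))) = 0 := by
        rw [sub_smul, h2, sub_self]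
      rw [(smul_eq_zero.1 h4).resolve_left (sub_ne_zero.2 hcd), LinearMap.zero_apply, map_zero]
  · exact ⟨0, L.zero_mem, by rw [map_zero, smul_zero], rfl⟩
  · rintro a b ⟨a', ha', ha1, ha2⟩ ⟨b', hb', hb1, hb2⟩
    refine ⟨a' + b', L.add_mem ha' hb', by rw [map_add, ha1, hb1, smul_add], ?_⟩
    rw [LinearMap.add_apply, LinearMap.add_apply, map_add, map_add, ha2, hb2]

include hc in
/-- A highest weight vector with a given component. -/
theorem exists_hw [IsAlgClosed K] {Y : End K T} (hY : Y ∈ L) :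
    ∃ X ∈ L, ad K e X = 0 ∧ ad K h X = ((2 * d : ℕ) : K) • X ∧
      pR ω (2 * d) x (X (x (2 * d))) = pR ω (2 * d) x (Y (x (2 * d))) := by
  obtain ⟨Y', hY', hw, hp⟩ := exists_wt hc hY
  have hhe' : ad K (ad K h) (ad K e) = (2 : K) • ad K e := by
    rw [ad_ad, hc.str.he, ad_smul']
  have hhf' : ad K (ad K h) (ad K f) = (-2 : K) • ad K f := by
    rw [ad_ad, hc.str.hf, ad_smul']
  have hE : ∀ (c : K) (Z : End K T), ad K h Z = c • Z →
      ad K h (ad K e Z) = (c + 2) • ad K e Z := by
    intro c Z hZ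
    have h1 := LinearMap.congr_fun hhe' Z
    rw [ad_apply (ad K h), LinearMap.sub_apply, Module.End.mul_apply, Module.End.mul_apply,
      LinearMap.smul_apply, hZ, map_smul, sub_eq_iff_eq_add] at h1
    rw [h1]
    module
  have hF : ∀ (c : K) (Z : End K T), ad K h Z = c • Z →
      ad K h (ad K f Z) = (c - 2) • ad K f Z := by
    intro c Z hZ
    have h1 := LinearMap.congr_fun hhf' Z
    rw [ad_apply (ad K h), LinearMap.sub_apply, Module.End.mul_apply, Module.End.mul_apply,
      LinearMap.smul_apply, hZ, map_smul, sub_eq_iff_eq_add] at h1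
    rw [h1]
    module
  let W : Submodule K (End K T) :=
    { carrier := {Z | Z ∈ L ∧ ad K h Z = ((2 * d + 2 : ℕ) : K) • Z}
      zero_mem' := ⟨L.zero_mem, by rw [map_zero, smul_zero]⟩
      add_mem' := fun {a b} ha hb => ⟨L.add_mem ha.1 hb.1, by
        rw [map_add, ha.2, hb.2, smul_add]⟩
      smul_mem' := fun c a ha => ⟨L.smul_mem c ha.1, by
        rw [map_smul, ha.2, smul_comm]⟩ }
  have hst : ∀ Z ∈ W, (ad K e * ad K f) Z ∈ W := by
    intro Z hZ
    rw [Module.End.mul_apply]
    refine ⟨ad_e_mem hc (ad_f_mem hc hZ.1), ?_⟩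
    rw [hE _ _ (hF _ _ hZ.2)]
    congr 1
    ring
  let G : W →ₗ[K] W := (ad K e * ad K f).restrict hst
  have hinj : Function.Injective G := by
    rw [injective_iff_map_eq_zero]
    intro Z hZ
    have h1 : ad K e (ad K f (Z : End K T)) = 0 := congrArg Subtype.val hZ
    exact Subtype.ext (ef_inj hc.str.ef hc.str.he hc.str.nil (Nat.succ_pos _) Z.2.2 h1)
  have hsurj := LinearMap.surjective_of_injective hinj
  have hz : ad K e Y' ∈ W := by
    refine ⟨ad_e_mem hc hY', ?_⟩
    rw [hE _ _ hw]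
    congr 1
    push_cast
    ring
  obtain ⟨Z, hZ⟩ := hsurj ⟨_, hz⟩
  have hZ' : ad K e (ad K f (Z : End K T)) = ad K e Y' := congrArg Subtype.val hZ
  refine ⟨Y' - ad K f Z, L.sub_mem hY' (ad_f_mem hc Z.2.1), by rw [map_sub, hZ', sub_self], ?_, ?_⟩
  · rw [map_sub, hw, hF _ _ Z.2.2, smul_sub]
    congr 2
    push_cast
    ring
  · rw [LinearMap.sub_apply, map_sub, pR_ad_f hc, sub_zero, hp]

include hc in
theorem pow_x (j : ℕ) (hj : j ≤ 2 * d) : ∀ i, i + j ≤ 2 * d →
    ∃ c : K, c ≠ 0 ∧ (e ^ j) (x (i + j)) = c • x i := by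
  induction j with
  | zero =>
    intro i _
    exact ⟨1, one_ne_zero, by rw [pow_zero, one_smul]; rfl⟩
  | succ j ih =>
    intro i hi
    obtain ⟨c, hc0, h1⟩ := ih (by omega) i (by omega)
    have h3 : (((i + j : ℕ) : K) + 1) * (((2 * d : ℕ) : K) - ((i + j : ℕ) : K)) ≠ 0 := by
      refine mul_ne_zero (Nat.cast_add_one_ne_zero _) (sub_ne_zero.2 ?_)
      intro h4
      have := Nat.cast_inj.1 h4
      omega
    refine ⟨_, mul_ne_zero h3 hc0, ?_⟩
    rw [pow_succ, Module.End.mul_apply, show i + (j + 1) = (i + j) + 1 by omega, hc.str.e_x,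
      map_smul, h1, smul_smul]

include hc in
theorem pow_r (j : ℕ) (hj : 0 < j) {r : T} (hr : ∀ i, ω (x i) r = 0) : (e ^ j) r = 0 := by
  obtain ⟨k, rfl⟩ : ∃ k, j = k + 1 := ⟨j - 1, by omega⟩
  rw [pow_succ, Module.End.mul_apply, (hc.str.kill r hr).1, map_zero]

include hc in
/-- The form of the highest weight vectors of weight `2 d`. -/
theorem hw_form {X : End K T} (hX : X ∈ L) (hXe : ad K e X = 0)
    (hXh : ad K h X = ((2 * d : ℕ) : K) • X) : ∃ κ : K, X = κ • e ^ d +
      tt ω (x 0) ((ω (x 0) (x (2 * d)))⁻¹ • pR ω (2 * d) x (X (x (2 * d)))) := by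
  have hd := hc.dpos
  have hs := hc.str
  have hJ := hs.pair 0 (2 * d) (by omega)
  have hXe' : ∀ v, X (e v) = e (X v) := by
    intro v
    have h1 := LinearMap.congr_fun hXe v
    rw [ad_apply, LinearMap.sub_apply, Module.End.mul_apply, Module.End.mul_apply,
      LinearMap.zero_apply, sub_eq_zero] at h1
    exact h1.symm
  have hXp : ∀ (j : ℕ) v, X ((e ^ j) v) = (e ^ j) (X v) := by
    intro j
    induction j with
    | zero => intro v; rfl
    | succ j ih =>
      intro v
      rw [pow_succ', Module.End.mul_apply, hXe', ih, Module.End.mul_apply]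
  have hXh' : ∀ v, h (X v) = X (h v) + ((2 * d : ℕ) : K) • X v := by
    intro v
    have h1 := LinearMap.congr_fun hXh v
    rw [ad_apply, LinearMap.sub_apply, Module.End.mul_apply, Module.End.mul_apply,
      LinearMap.smul_apply, sub_eq_iff_eq_add] at h1
    rw [h1, add_comm]
  obtain ⟨b, hb⟩ : ∃ b, b = pR ω (2 * d) x (X (x (2 * d))) := ⟨_, rfl⟩
  have hbR : ∀ i, ω (x i) b = 0 := fun i => by rw [hb]; exact om_pR hs i _
  -- the value at the lowest vector
  have h0 : h (X (x (2 * d))) = 0 := by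
    rw [hXh', hs.h_x, map_smul, ← add_smul]
    have h1 : ((2 * d : ℕ) : K) - 2 * ((2 * d : ℕ) : K) + ((2 * d : ℕ) : K) = 0 := by ring
    rw [h1, zero_smul]
  have hlow : ∃ c : K, X (x (2 * d)) = c • x d + b := by
    refine ⟨(ω (x (2 * d - d)) (x d))⁻¹ * ω (x (2 * d - d)) (X (x (2 * d))), ?_⟩
    have h1 := dec (ω := ω) (D := 2 * d) (x := x) (X (x (2 * d)))
    rw [← hb, pS_apply, Finset.sum_eq_single d] at h1
    · exact h1
    · intro i hi hid
      rw [mem_range] at hi
      have h2 := hs.skh (x (2 * d - i)) (X (x (2 * d)))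
      rw [h0, map_zero, add_zero, hs.h_x, map_smul, LinearMap.smul_apply, smul_eq_mul] at h2
      rcases mul_eq_zero.1 h2 with h3 | h3
      · exfalso
        have h4 : ((2 * d : ℕ) : K) = ((2 * (2 * d - i) : ℕ) : K) := by
          push_cast at h3 ⊢
          linear_combination h3
        have := Nat.cast_inj.1 h4
        omega
      · rw [h3, mul_zero, zero_smul]
    · intro h2
      exact absurd (mem_range.2 (by omega)) h2
  obtain ⟨c', hc'⟩ := hlow
  obtain ⟨c, hc0, hcd⟩ := pow_x hc d (by omega) d (by omega)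
  rw [show d + d = 2 * d by omega] at hcd
  refine ⟨c' * c⁻¹, ?_⟩
  rw [← hb]
  have hZlow : X (x (2 * d)) - (c' * c⁻¹) • (e ^ d) (x (2 * d)) = b := by
    rw [hc', hcd, smul_smul, mul_assoc, inv_mul_cancel₀ hc0, mul_one]
    abel
  have hZx : ∀ i, i ≤ 2 * d → X (x i) - (c' * c⁻¹) • (e ^ d) (x i) =
      if i = 2 * d then b else 0 := by
    intro i hi
    by_cases hid : i = 2 * d
    · rw [if_pos hid, hid]
      exact hZlow
    · rw [if_neg hid]
      obtain ⟨a, ha, h1⟩ := pow_x hc (2 * d - i) (by omega) i (by omega)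
      rw [show i + (2 * d - i) = 2 * d by omega] at h1
      have h2 : a • (X (x i) - (c' * c⁻¹) • (e ^ d) (x i)) = 0 := by
        have h3 : a • (e ^ d) (x i) = (e ^ (2 * d - i)) ((e ^ d) (x (2 * d))) := by
          rw [← map_smul, ← h1, ← Module.End.mul_apply, ← Module.End.mul_apply, ← pow_add,
            ← pow_add, add_comm]
        rw [smul_sub, ← map_smul, ← h1, hXp, smul_comm, h3, ← map_smul, ← map_sub, hZlow]
        exact pow_r hc _ (by omega) hbR
      exact (smul_eq_zero.1 h2).resolve_left ha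
  refine ext_str hs (fun i hi => ?_) fun r hr => ?_
  · rw [LinearMap.add_apply, LinearMap.smul_apply, ← sub_eq_iff_eq_add', hZx i hi, tt_apply,
      map_smul, LinearMap.smul_apply, hc.sym b, hbR, smul_zero, zero_smul, sub_zero, smul_smul]
    by_cases hid : i = 2 * d
    · rw [if_pos hid, hid, mul_inv_cancel₀ hJ, one_smul]
    · rw [if_neg hid, hs.orth 0 i (by omega), zero_mul, zero_smul]
  · rw [LinearMap.add_apply, LinearMap.smul_apply, pow_r hc d hd hr, smul_zero, zero_add, tt_apply,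
      hr, zero_smul, zero_sub]
    have h1 : ∀ i, i ≤ 2 * d → ω (x i) (X r) = if i = 2 * d then -ω b r else 0 := by
      intro i hi
      have h2 := hc.sk X hX (x i) r
      have h3 : X (x i) = (c' * c⁻¹) • (e ^ d) (x i) + if i = 2 * d then b else 0 := by
        rw [← hZx i hi]
        abel
      have h4 : ω ((e ^ d) (x i)) r = 0 := by
        by_cases hid : d ≤ i
        · obtain ⟨a, -, ha⟩ := pow_x hc d (by omega) (i - d) (by omega)
          rw [Nat.sub_add_cancel hid] at ha
          rw [ha, map_smul, LinearMap.smul_apply, hr, smul_zero]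
        · obtain ⟨a, -, ha⟩ := pow_x hc i (by omega) 0 (by omega)
          rw [zero_add] at ha
          rw [show d = (d - i - 1) + 1 + i by omega, pow_add, Module.End.mul_apply, ha, map_smul,
            pow_succ, Module.End.mul_apply, hs.e_zero, map_zero, smul_zero, map_zero,
            LinearMap.zero_apply]
      rw [h3, map_add, map_smul, LinearMap.add_apply, LinearMap.smul_apply, h4, smul_zero,
        zero_add] at h2
      by_cases hid : i = 2 * d
      · rw [if_pos hid] at h2 ⊢
        linear_combination h2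
      · rw [if_neg hid] at h2 ⊢
        rw [map_zero, LinearMap.zero_apply, zero_add] at h2
        exact h2
    have h2 : pR ω (2 * d) x (X r) = 0 := by
      have h3 := hXh' r
      rw [(hs.kill r hr).2.1, map_zero, zero_add] at h3
      have h4 := congrArg (pR ω (2 * d) x) h3
      rw [pR_h hs, map_smul] at h4
      refine (smul_eq_zero.1 h4.symm).resolve_left (Nat.cast_ne_zero.2 (by omega))
    rw [dec (ω := ω) (D := 2 * d) (x := x) (X r), h2, add_zero, pS_apply,
      Finset.sum_eq_single 0]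
    · rw [Nat.sub_zero, h1 _ le_rfl, if_pos rfl, hc.sym (x (2 * d)) (x 0), map_smul,
        LinearMap.smul_apply, smul_eq_mul, ← neg_smul]
      congr 1
      ring
    · intro i hi hi0
      rw [mem_range] at hi
      rw [h1 _ (by omega), if_neg (by omega), mul_zero, zero_smul]
    · intro h3
      exact absurd (mem_range.2 (by omega)) h3

end main

end Pool.Agent.Helper85.SJ
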