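import Pool.Agent.Helper85.SJ.Gen
import Pool.Agent.Helper2.MU.Block

/-!
# Operators compatible with all equivariant multilinear maps
-/

set_option linter.unusedSectionVars false
set_option autoImplicit false

namespace Pool.Agent.Helper85.SJ

open Module Finset Function Pool.Agent.Y126.JB Pool.Agent.V1141.OF
open Pool.Agent.H204R3.CM Pool.Agent.H204R3.SP Pool.Agent.H204R3.GP
open Pool.Agent.Y137.MV (IsEqv eqv_pull)

noncomputable section

variable {k : Type} [Field k] [CharZero k] {I : Type} [Fintype I] [DecidableEq I] {V : I → Type}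
  [∀ i, AddCommGroup (V i)] [∀ i, Module k (V i)] {M : Type} [AddCommGroup M] [Module k M]
  {Γ : Type} [Group Γ] (ρ : ∀ i, Representation k Γ (V i)) (τ : Representation k Γ M)

/-- block diagonal operators -/
def dg (k : Type) [Field k] {V : I → Type} [∀ i, AddCommGroup (V i)] [∀ i, Module k (V i)]
    (Z : ∀ i, End k (V i)) : End k (∀ i, V i) :=
  LinearMap.pi fun i => (Z i).comp (LinearMap.proj i)

theorem dg_apply (Z : ∀ i, End k (V i)) (v : ∀ i, V i) (i : I) : dg k Z v i = Z i (v i) := rfl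

theorem dg_mul (Z W : ∀ i, End k (V i)) : dg k Z * dg k W = dg k fun i => Z i * W i :=
  LinearMap.ext fun _ => funext fun _ => rfl

theorem dg_sub (Z W : ∀ i, End k (V i)) : dg k Z - dg k W = dg k fun i => Z i - W i :=
  LinearMap.ext fun _ => funext fun _ => rfl

theorem dg_add (Z W : ∀ i, End k (V i)) : dg k Z + dg k W = dg k fun i => Z i + W i :=
  LinearMap.ext fun _ => funext fun _ => rfl

theorem dg_smul (c : k) (Z : ∀ i, End k (V i)) : c • dg k Z = dg k fun i => c • Z i :=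
  LinearMap.ext fun _ => funext fun _ => rfl

theorem dg_ad (Z W : ∀ i, End k (V i)) :
    ad k (dg k Z) (dg k W) = dg k fun i => ad k (Z i) (W i) := by
  simp only [ad_apply]
  rw [dg_mul, dg_mul, dg_sub]

theorem dg_ad_pow (Z W : ∀ i, End k (V i)) (n : ℕ) :
    (ad k (dg k Z) ^ n) (dg k W) = dg k fun i => (ad k (Z i) ^ n) (W i) := by
  induction n with
  | zero => rfl
  | succ n ih =>
    rw [pow_succ', Module.End.mul_apply, ih, dg_ad]
    refine LinearMap.ext fun v => funext fun i => ?_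
    rw [dg_apply, dg_apply, pow_succ', Module.End.mul_apply]

theorem dg_pow (Z : ∀ i, End k (V i)) (n : ℕ) : dg k Z ^ n = dg k fun i => Z i ^ n := by
  induction n with
  | zero => exact LinearMap.ext fun _ => funext fun _ => rfl
  | succ n ih =>
    rw [pow_succ, ih, dg_mul]
    refine LinearMap.ext fun v => funext fun i => ?_
    rw [dg_apply, dg_apply, pow_succ]

theorem dg_sum {A : Type} (s : Finset A) (Z : A → ∀ i, End k (V i)) :
    ∑ a ∈ s, dg k (Z a) = dg k fun i => ∑ a ∈ s, Z a i := by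
  refine LinearMap.ext fun v => funext fun i => ?_
  rw [dg_apply, LinearMap.sum_apply, Finset.sum_apply, LinearMap.sum_apply]
  exact Finset.sum_congr rfl fun a _ => rfl

theorem dg_lg (Z : ∀ i, End k (V i)) (n : ℕ) : lg k (dg k Z) n = dg k fun i => lg k (Z i) n := by
  rw [lg, Al]
  simp only [dg_pow, dg_smul]
  rw [dg_sum]
  rfl

theorem sumRep_dg (γ : Γ) : sumRep ρ γ - 1 = dg k fun i => (ρ i γ - 1 : End k (V i)) :=
  LinearMap.ext fun _ => funext fun _ => rfl

theorem io_dg (i : I) (Z : ∀ i, End k (V i)) (h : ∀ j, j ≠ i → Z j = 0) :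
    dg k Z = io k i (Z i) := by
  refine LinearMap.ext fun v => funext fun j => ?_
  rw [dg_apply, io_apply, LinearMap.single_apply]
  by_cases hj : j = i
  · subst hj
    rw [Pi.single_eq_same]
  · rw [Pi.single_eq_of_ne hj, h j hj, LinearMap.zero_apply]

/-- The pair `(Z, Z')` is compatible with all equivariant multilinear maps. -/
def Compat (Z : End k (∀ i, V i)) (Z' : End k M) : Prop :=
  ∀ (κ : Type) [Fintype κ] [DecidableEq κ] (φ : MultilinearMap k (fun _ : κ => ∀ i, V i) M),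
    IsEqv (sumRep ρ) τ φ → ∀ v, ∑ j, φ (update v j (Z (v j))) = Z' (φ v)

theorem compat_zero : Compat ρ τ 0 0 := by
  intro κ _ _ φ _ v
  rw [LinearMap.zero_apply]
  refine Finset.sum_eq_zero fun j _ => ?_
  exact φ.map_coord_zero j (by simp)

variable {ρ τ}

theorem compat_add {Z W : End k (∀ i, V i)} {Z' W' : End k M} (h1 : Compat ρ τ Z Z')
    (h2 : Compat ρ τ W W') : Compat ρ τ (Z + W) (Z' + W') := by
  intro κ _ _ φ hφ v
  simp only [LinearMap.add_apply, MultilinearMap.map_update_add, Finset.sum_add_distrib]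
  rw [h1 κ φ hφ v, h2 κ φ hφ v]

theorem compat_smul (c : k) {Z : End k (∀ i, V i)} {Z' : End k M} (h1 : Compat ρ τ Z Z') :
    Compat ρ τ (c • Z) (c • Z') := by
  intro κ _ _ φ hφ v
  simp only [LinearMap.smul_apply, MultilinearMap.map_update_smul]
  rw [← Finset.smul_sum, h1 κ φ hφ v]

theorem compat_bracket {Z W : End k (∀ i, V i)} {Z' W' : End k M} (h1 : Compat ρ τ Z Z')
    (h2 : Compat ρ τ W W') : Compat ρ τ (Z * W - W * Z) (Z' * W' - W' * Z') := by
  intro κ _ _ φ hφ v
  -- the double sums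
  have key : ∀ (A B : End k (∀ i, V i)) (A' B' : End k M), Compat ρ τ A A' → Compat ρ τ B B' →
      ∑ j, φ (update v j (B (A (v j)))) = B' (A' (φ v)) -
        ∑ j, ∑ l ∈ Finset.univ.erase j, φ (update (update v j (A (v j))) l (B (v l))) := by
    intro A B A' B' hA hB
    have h3 : ∑ j, (φ (update v j (B (A (v j)))) + ∑ l ∈ Finset.univ.erase j,
        φ (update (update v j (A (v j))) l (B (v l)))) = B' (A' (φ v)) := by
      rw [← hA κ φ hφ v, map_sum]
      refine Finset.sum_congr rfl fun j _ => ?_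
      have h4 := hB κ φ hφ (update v j (A (v j)))
      rw [← Finset.add_sum_erase _ _ (Finset.mem_univ j), update_self, update_idem] at h4
      rw [← h4]
      congr 1
      refine Finset.sum_congr rfl fun l hl => ?_
      rw [update_of_ne (Finset.ne_of_mem_erase hl)]
    rw [← h3, Finset.sum_add_distrib]
    abel
  have e1 : ∀ j, φ (update v j ((Z * W - W * Z) (v j))) =
      φ (update v j (Z (W (v j)))) - φ (update v j (W (Z (v j)))) := by
    intro j
    rw [LinearMap.sub_apply, MultilinearMap.map_update_sub]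
    rfl
  rw [Finset.sum_congr rfl (fun j _ => e1 j), Finset.sum_sub_distrib, key W Z W' Z' h2 h1,
    key Z W Z' W' h1 h2]
  have h2 : ∑ j, ∑ l ∈ Finset.univ.erase j, φ (update (update v j (W (v j))) l (Z (v l))) =
      ∑ j, ∑ l ∈ Finset.univ.erase j, φ (update (update v j (Z (v j))) l (W (v l))) := by
    have h3 : ∀ (A B : End k (∀ i, V i)), ∑ j, ∑ l ∈ Finset.univ.erase j,
        φ (update (update v j (A (v j))) l (B (v l))) =
        ∑ j, ∑ l, if l ≠ j then φ (update (update v j (A (v j))) l (B (v l))) else 0 := by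
      intro A B
      refine Finset.sum_congr rfl fun j _ => ?_
      rw [← Finset.sum_filter]
      refine Finset.sum_congr ?_ fun _ _ => rfl
      ext l
      simp
    rw [h3, h3, Finset.sum_comm]
    refine Finset.sum_congr rfl fun j _ => Finset.sum_congr rfl fun l _ => ?_
    by_cases h : l = j
    · subst h
      simp
    · rw [if_pos (Ne.symm h), if_pos h, update_comm (Ne.symm h)]
  rw [h2, LinearMap.sub_apply, Module.End.mul_apply, Module.End.mul_apply]
  abel

theorem compat_ad {Z W : End k (∀ i, V i)} {Z' W' : End k M} (h1 : Compat ρ τ Z Z')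
    (h2 : Compat ρ τ W W') (n : ℕ) : Compat ρ τ ((ad k Z ^ n) W) ((ad k Z' ^ n) W') := by
  induction n with
  | zero => exact h2
  | succ n ih =>
    rw [pow_succ', Module.End.mul_apply, pow_succ' (ad k Z'), Module.End.mul_apply]
    exact compat_bracket h1 ih

theorem rinv' {H : Type} [AddCommGroup H] [Module k H] (σ : Representation k Γ H) (γ : Γ) (x : H) :
    σ γ (σ γ⁻¹ x) = x := by
  rw [← Module.End.mul_apply, ← map_mul, mul_inv_cancel, map_one]
  rfl

theorem compat_conj {Z : End k (∀ i, V i)} {Z' : End k M} (hZ : Compat ρ τ Z Z') (γ : Γ) :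
    Compat ρ τ (sumRep ρ γ * Z * sumRep ρ γ⁻¹) (τ γ * Z' * τ γ⁻¹) := by
  intro κ _ _ φ hφ v
  have h1 := hZ κ _ (eqv_pull (sumRep ρ) τ hφ γ) (fun j => sumRep ρ γ⁻¹ (v j))
  have e1 : ∀ w : κ → ∀ i, V i, ((τ γ⁻¹).compMultilinearMap
      (φ.compLinearMap fun _ => sumRep ρ γ)) w = τ γ⁻¹ (φ fun j => sumRep ρ γ (w j)) :=
    fun _ => rfl
  simp only [e1] at h1
  have h2 : ∀ j, (fun i => sumRep ρ γ (update (fun j => sumRep ρ γ⁻¹ (v j)) j
      (Z (sumRep ρ γ⁻¹ (v j))) i)) = update v j ((sumRep ρ γ * Z * sumRep ρ γ⁻¹) (v j)) := by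
    intro j
    funext i
    by_cases hi : i = j
    · subst hi
      rw [update_self, update_self]
      rfl
    · rw [update_of_ne hi, update_of_ne hi, rinv']
  have h3 : (fun j => sumRep ρ γ (sumRep ρ γ⁻¹ (v j))) = v := funext fun j => rinv' _ γ _
  simp only [h2, h3] at h1
  rw [← map_sum] at h1
  have h4 := congrArg (τ γ) h1
  rw [rinv'] at h4
  exact h4

/-- The logarithms of a unipotent element. -/
theorem compat_lg {γ : Γ} {n : ℕ} (hn : (sumRep ρ γ - 1) ^ (n + 1) = 0)
    (hn' : (τ γ - 1 : End k M) ^ (n + 1) = 0) :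
    Compat ρ τ (lg k (sumRep ρ γ - 1) (n + 1)) (lg k (τ γ - 1) (n + 1)) := by
  intro κ _ _ φ hφ v
  rw [← sub_eq_zero, ← Module.forall_dual_apply_eq_zero_iff k]
  intro l
  rw [map_sub, sub_eq_zero]
  obtain ⟨Δ, hΔ, h1⟩ := hφ
  obtain ⟨N, hN, hgN⟩ := Pool.Agent.TH125.Gal.exists_pow hΔ γ
  obtain ⟨u, hu⟩ : ∃ u, u = sumRep ρ γ := ⟨_, rfl⟩
  obtain ⟨u', hu'⟩ : ∃ u' : End k M, u' = τ γ := ⟨_, rfl⟩
  rw [← hu] at hn
  rw [← hu'] at hn'
  rw [← hu, ← hu']
  have e1 : (1 + (u - 1) : End k (∀ i, V i)) = u := by abel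
  have e2 : (1 + (u' - 1) : End k M) = u' := by abel
  have hpow := fun m => pow_eq (K := k) (u - 1) hn (n + 1) (by omega) m
  have hpow' := fun m => pow_eq (K := k) (u' - 1) hn' (n + 1) (by omega) m
  rw [e1] at hpow
  rw [e2] at hpow'
  obtain ⟨c, hc⟩ : ∃ c : κ → Fin (n + 1 + 2) → ∀ i, V i,
      c = fun (j : κ) (a : Fin (n + 1 + 2)) => Al k (u - 1) (n + 1) (a : ℕ) (v j) := ⟨_, rfl⟩
  obtain ⟨Q, hQ⟩ : ∃ Q : Polynomial k, Q = ∑ a : Fin (n + 1 + 2),
      Polynomial.C (l (Al k (u' - 1) (n + 1) a (φ v))) * Polynomial.X ^ (a : ℕ) := ⟨_, rfl⟩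
  have heq : pol φ l c = Q := by
    refine Polynomial.eq_of_infinite_eval_eq _ _ ?_
    have hinf : ((fun m : ℕ => ((N * m : ℕ) : k)) '' Set.univ).Infinite := by
      refine Set.Infinite.image ?_ Set.infinite_univ
      intro a _ b _ hab
      exact Nat.eq_of_mul_eq_mul_left hN (Nat.cast_injective hab)
    refine hinf.mono ?_
    rintro _ ⟨m, -, rfl⟩
    rw [Set.mem_ofPred_eq, pol_eval, hQ, Polynomial.eval_finsetSum]
    have h3 : γ ^ (N * m) ∈ Δ := by
      rw [pow_mul]
      exact Subgroup.pow_mem _ hgN m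
    have h4 := h1 _ h3 v
    rw [map_pow, map_pow, ← hu, ← hu', hpow, hpow'] at h4
    have h5 : (fun j => ∑ a : Fin (n + 1 + 2), ((N * m : ℕ) : k) ^ (a : ℕ) • c j a) =
        fun j => (∑ a : Fin (n + 1 + 2), ((N * m : ℕ) : k) ^ (a : ℕ) •
          Al k (u - 1) (n + 1) (a : ℕ)) (v j) := by
      funext j
      rw [hc, LinearMap.sum_apply]
      exact Finset.sum_congr rfl fun a _ => rfl
    rw [h5, h4, LinearMap.sum_apply, map_sum]
    refine Finset.sum_congr rfl fun a _ => ?_
    rw [LinearMap.smul_apply, map_smul, Polynomial.eval_mul, Polynomial.eval_C,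
      Polynomial.eval_pow, Polynomial.eval_X, smul_eq_mul, mul_comm]
  have h6 := pol_coeff φ l c
  rw [heq, hQ, Polynomial.finsetSum_coeff] at h6
  have h7 : ∀ a : Fin (n + 1 + 2), (Polynomial.C (l (Al k (u' - 1) (n + 1) a (φ v))) *
      Polynomial.X ^ (a : ℕ)).coeff 1 =
      if a = 1 then l (Al k (u' - 1) (n + 1) 1 (φ v)) else 0 := by
    intro a
    rw [Polynomial.coeff_C_mul, Polynomial.coeff_X_pow]
    by_cases ha : a = 1
    · subst ha
      have h8 : ((1 : Fin (n + 1 + 2)) : ℕ) = 1 := by simp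
      rw [h8, if_pos rfl, if_pos rfl, mul_one]
    · rw [if_neg ha, if_neg, mul_zero]
      intro h8
      apply ha
      apply Fin.ext
      rw [← h8]
      simp
  rw [Finset.sum_congr rfl fun a _ => h7 a, Finset.sum_ite_eq' Finset.univ (1 : Fin (n + 1 + 2)),
    if_pos (Finset.mem_univ _)] at h6
  rw [lg, lg, h6]
  have h9 : ∀ j : κ, c j 0 = v j := by
    intro j
    rw [hc]
    change Al k (u - 1) (n + 1) ((0 : Fin (n + 1 + 2)) : ℕ) (v j) = v j
    rw [Fin.val_zero, Al_zero _ (Nat.succ_pos n), Module.End.one_apply]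
  have h10 : ∀ j : κ, c j 1 = Al k (u - 1) (n + 1) 1 (v j) := by
    intro j
    rw [hc]
    have h8 : ((1 : Fin (n + 1 + 2)) : ℕ) = 1 := by simp
    change Al k (u - 1) (n + 1) ((1 : Fin (n + 1 + 2)) : ℕ) (v j) = _
    rw [h8]
  have h11 : (fun j => c j 0) = v := funext h9
  simp only [h11, h10]

variable (ρ τ) (ω : ∀ i, V i →ₗ[k] V i →ₗ[k] k)

/-- The skew operators on `V i` which are part of a family of operators on all `V j` and on `M` that is
compatible with all equivariant multilinear maps. -/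
def prO (i : I) : Submodule k (Module.End k (V i)) where
  carrier := {X | (∀ u w, ω i (X u) w + ω i u (X w) = 0) ∧
    ∃ (Z : ∀ j, End k (V j)) (Z' : End k M), Z i = X ∧ Compat ρ τ (dg k Z) Z'}
  zero_mem' := ⟨fun u w => by simp, fun _ => 0, 0, rfl, by
    have h1 : (dg k fun j => (0 : End k (V j))) = 0 :=
      LinearMap.ext fun _ => funext fun _ => rfl
    rw [h1]
    exact compat_zero ρ τ⟩
  add_mem' := by
    rintro X Y ⟨hX, Z, Z', rfl, h1⟩ ⟨hY, W, W', rfl, h2⟩
    refine ⟨fun u w => ?_, fun j => Z j + W j, Z' + W', rfl, ?_⟩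
    · rw [LinearMap.add_apply, LinearMap.add_apply, map_add, map_add, LinearMap.add_apply]
      linear_combination hX u w + hY u w
    · rw [← dg_add]
      exact compat_add h1 h2
  smul_mem' := by
    rintro c X ⟨hX, Z, Z', rfl, h1⟩
    refine ⟨fun u w => ?_, fun j => c • Z j, c • Z', rfl, ?_⟩
    · rw [LinearMap.smul_apply, LinearMap.smul_apply, map_smul, map_smul, LinearMap.smul_apply,
        smul_eq_mul, smul_eq_mul]
      linear_combination c * hX u w
    · rw [← dg_smul]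
      exact compat_smul c h1

theorem skew_br {T : Type} [AddCommGroup T] [Module k T] {ω : T →ₗ[k] T →ₗ[k] k} {X Y : End k T}
    (hX : ∀ u w, ω (X u) w + ω u (X w) = 0) (hY : ∀ u w, ω (Y u) w + ω u (Y w) = 0) (u w : T) :
    ω ((X * Y - Y * X) u) w + ω u ((X * Y - Y * X) w) = 0 := by
  rw [LinearMap.sub_apply, LinearMap.sub_apply, Module.End.mul_apply, Module.End.mul_apply,
    Module.End.mul_apply, Module.End.mul_apply, map_sub, map_sub, LinearMap.sub_apply]
  linear_combination hX (Y u) w - hY (X u) w + hX u (Y w) - hY u (X w)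

theorem prO_bracket (i : I) : ∀ X ∈ prO ρ τ ω i, ∀ Y ∈ prO ρ τ ω i,
    X * Y - Y * X ∈ prO ρ τ ω i := by
  rintro X ⟨hX, Z, Z', rfl, h1⟩ Y ⟨hY, W, W', rfl, h2⟩
  refine ⟨skew_br hX hY, fun j => Z j * W j - W j * Z j, Z' * W' - W' * Z', rfl, ?_⟩
  rw [← dg_sub, ← dg_mul, ← dg_mul]
  exact compat_bracket h1 h2

theorem prO_conj (i : I) {c : Γ → k} (hω : ∀ s u v, ω i (ρ i s u) (ρ i s v) = c s * ω i u v)
    (s : Γ) : ∀ X ∈ prO ρ τ ω i, ρ i s * X * ρ i s⁻¹ ∈ prO ρ τ ω i := by
  rintro X ⟨hX, Z, Z', rfl, h1⟩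
  refine ⟨fun u w => ?_, fun j => ρ j s * Z j * ρ j s⁻¹, τ s * Z' * τ s⁻¹, rfl, ?_⟩
  · have h1 := hX (ρ i s⁻¹ u) (ρ i s⁻¹ w)
    have h2 := hω s (Z i (ρ i s⁻¹ u)) (ρ i s⁻¹ w)
    have h3 := hω s (ρ i s⁻¹ u) (Z i (ρ i s⁻¹ w))
    rw [rinv'] at h2 h3
    change ω i (ρ i s (Z i (ρ i s⁻¹ u))) w + ω i u (ρ i s (Z i (ρ i s⁻¹ w))) = 0
    rw [h2, h3, ← mul_add, h1, mul_zero]
  · have h2 : (dg k fun j => ρ j s * Z j * ρ j s⁻¹) =
        sumRep ρ s * dg k Z * sumRep ρ s⁻¹ := LinearMap.ext fun _ => funext fun _ => rfl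
    rw [h2]
    exact compat_conj h1 s

/-- `lieO` is an ideal. -/
theorem lieO_ideal (i : I) : ∀ X ∈ prO ρ τ ω i, ∀ Y ∈ lieO ρ τ ω i,
    X * Y - Y * X ∈ lieO ρ τ ω i := by
  rintro X ⟨hX, Z, Z', rfl, h1⟩ Y ⟨hY, h2⟩
  refine ⟨skew_br hX hY, fun κ _ _ φ l hφ => ?_⟩
  have h3 : io k i (Z i * Y - Y * Z i) = dg k Z * io k i Y - io k i Y * dg k Z := by
    refine LinearMap.ext fun v => funext fun j => ?_
    have e1 : (dg k Z * io k i Y - io k i Y * dg k Z) v j =
        Z j ((io k i Y v) j) - (io k i Y (dg k Z v)) j := rfl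
    rw [e1, io_apply, io_apply, io_apply, LinearMap.single_apply, LinearMap.single_apply,
      LinearMap.single_apply]
    by_cases hj : j = i
    · subst hj
      rw [Pi.single_eq_same, Pi.single_eq_same, Pi.single_eq_same]
      rfl
    · rw [Pi.single_eq_of_ne hj, Pi.single_eq_of_ne hj, Pi.single_eq_of_ne hj, map_zero, sub_zero]
  have h4 : Compat ρ τ (io k i Y) 0 := by
    intro κ' _ _ φ' hφ' v
    rw [LinearMap.zero_apply, ← Module.forall_dual_apply_eq_zero_iff k]
    intro l'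
    rw [map_sum]
    exact h2 κ' φ' l' hφ' v
  have h5 := compat_bracket h1 h4
  rw [mul_zero, zero_mul, sub_zero] at h5
  intro v
  rw [h3]
  have h6 := congrArg l (h5 κ φ hφ v)
  rw [LinearMap.zero_apply, map_zero, map_sum] at h6
  exact h6

/-- The iterated commutators with an element of smaller exponent on the other spaces. -/
theorem ad_pow_mem (i : I) {E : ∀ j, End k (V j)} {E' : End k M} (hE : Compat ρ τ (dg k E) E')
    (hEi : ∀ u w, ω i (E i u) w + ω i u (E i w) = 0) {n : ℕ}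
    (hn : ∀ j, j ≠ i → ad k (E j) ^ n = 0) (hn' : ad k E' ^ n = 0) {X : End k (V i)}
    (hX : X ∈ prO ρ τ ω i) : (ad k (E i) ^ n) X ∈ lieO ρ τ ω i := by
  obtain ⟨hX, Z, Z', rfl, h1⟩ := hX
  have h2 := compat_ad hE h1 n
  rw [hn', LinearMap.zero_apply, dg_ad_pow, io_dg i _ fun j hj => by rw [hn j hj]; rfl] at h2
  refine ⟨?_, fun κ _ _ φ l hφ v => ?_⟩
  · clear h2
    generalize Z i = Y at hX
    induction n generalizing Y with
    | zero => exact hX
    | succ n ih =>
      have h3 : ∀ (m : ℕ) (Y : End k (V i)), (∀ u w, ω i (Y u) w + ω i u (Y w) = 0) →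
          ∀ u w, ω i (((ad k (E i) ^ m) Y) u) w + ω i u (((ad k (E i) ^ m) Y) w) = 0 := by
        intro m
        induction m with
        | zero => intro Y hY; exact hY
        | succ m ihm =>
          intro Y hY
          rw [pow_succ, Module.End.mul_apply]
          exact ihm _ (skew_br hEi hY)
      exact h3 _ Y hX
  · have h6 := congrArg l (h2 κ φ hφ v)
    rw [LinearMap.zero_apply, map_zero, map_sum] at h6
    exact h6

end

end Pool.Agent.Helper85.SJ
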