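import Mathlib
import Pool.Graph.R_seed8.Y126.JB.Core2

/-!
# One string of a triple
-/

set_option linter.unusedSectionVars false
set_option autoImplicit false

namespace Pool.Agent.Helper85.SJ

open Module Finset Pool.Agent.Y126.JB

variable {K : Type} [Field K] [CharZero K] {T : Type} [AddCommGroup T] [Module K T]
  [FiniteDimensional K T]

/-- The operators `e`, `h`, `f` form a triple, they act on the span of `x 0, …, x D` as on the
irreducible module of dimension `D + 1` with the highest weight vector `x 0`, and as zero on the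
orthogonal complement of this span. -/
structure Str (ω : T →ₗ[K] T →ₗ[K] K) (e h f : End K T) (D : ℕ) (x : ℕ → T) : Prop where
  pos : 0 < D
  he : ad K h e = (2 : K) • e
  hf : ad K h f = (-2 : K) • f
  ef : h = ad K e f
  nil : IsNilpotent e
  ske : ∀ u v, ω (e u) v + ω u (e v) = 0
  skh : ∀ u v, ω (h u) v + ω u (h v) = 0
  skf : ∀ u v, ω (f u) v + ω u (f v) = 0
  f_x : ∀ i, f (x i) = x (i + 1)
  h_x : ∀ i, h (x i) = ((D : K) - 2 * i) • x i
  e_zero : e (x 0) = 0
  e_x : ∀ i, e (x (i + 1)) = (((i : K) + 1) * ((D : K) - i)) • x i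
  zero : ∀ i, D < i → x i = 0
  orth : ∀ i j, i + j ≠ D → ω (x i) (x j) = 0
  pair : ∀ i j, i + j = D → ω (x i) (x j) ≠ 0
  kill : ∀ r, (∀ i, ω (x i) r = 0) → e r = 0 ∧ h r = 0 ∧ f r = 0

theorem rank_pow {N : End K T} (hN : IsNilpotent N) {D : ℕ}
    (hr : finrank K (LinearMap.range N) = D) : N ^ (D + 1) = 0 := by
  have hst : ∀ y ∈ LinearMap.range N, N y ∈ LinearMap.range N := fun y _ => ⟨y, rfl⟩
  obtain ⟨m, hm⟩ := hN
  have hpow : ∀ (n : ℕ) (y : LinearMap.range N),
      (((N.restrict hst) ^ n) y : T) = (N ^ n) (y : T) := by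
    intro n
    induction n with
    | zero => intro y; rfl
    | succ n ih =>
      intro y
      rw [pow_succ, Module.End.mul_apply, ih, pow_succ, Module.End.mul_apply]
      rfl
  have hnil : IsNilpotent (N.restrict hst : End K (LinearMap.range N)) := by
    refine ⟨m, LinearMap.ext fun y => Subtype.ext ?_⟩
    rw [hpow, hm]
    rfl
  have h1 := LinearMap.aeval_self_charpoly (N.restrict hst : End K (LinearMap.range N))
  rw [hnil.charpoly_eq_X_pow_finrank, map_pow, Polynomial.aeval_X, hr] at h1
  refine LinearMap.ext fun v => ?_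
  rw [pow_succ, Module.End.mul_apply]
  have h2 := hpow D ⟨N v, v, rfl⟩
  rw [h1] at h2
  exact h2.symm

/-- A triple whose nilpotent element has exactly one block of size greater than one. -/
theorem exists_str {ω : T →ₗ[K] T →ₗ[K] K} (hnd : ∀ u, (∀ v, ω u v = 0) → u = 0)
    {e h f : End K T} (hh : h = ad K e f) (hhe : ad K h e = (2 : K) • e)
    (hhf : ad K h f = (-2 : K) • f) (hen : IsNilpotent e)
    (hes : ∀ u v, ω (e u) v + ω u (e v) = 0) (hhs : ∀ u v, ω (h u) v + ω u (h v) = 0)
    (hfs : ∀ u v, ω (f u) v + ω u (f v) = 0) {D : ℕ} (hD : 0 < D)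
    (hr : finrank K (LinearMap.range e) = D) (heD : e ^ D ≠ 0) :
    ∃ x : ℕ → T, Str ω e h f D x := by
  have h0 := rank_pow hen hr
  obtain ⟨v, hv⟩ : ∃ v, (e ^ D) v ≠ 0 := by
    by_contra hcon
    push Not at hcon
    exact heD (LinearMap.ext fun v => hcon v)
  obtain ⟨t, ht⟩ : ∃ t, t = (e ^ D) v := ⟨_, rfl⟩
  have ht0 : t ≠ 0 := ht ▸ hv
  have het : e t = 0 := by
    rw [ht, ← Module.End.mul_apply, ← pow_succ', h0]
    rfl
  have hht : h t = (D : K) • t := by
    have h1 : t ∈ Kj e D := mem_Kj.2 ⟨het, v, ht.symm⟩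
    obtain ⟨-, u, hu⟩ := mem_Kj.1 (Kj_step hh hhe h1)
    rw [h0] at hu
    exact sub_eq_zero.1 hu.symm
  obtain ⟨x, hx⟩ : ∃ x : ℕ → T, x = fun i => (f ^ i) t := ⟨_, rfl⟩
  have hfx : ∀ i, f (x i) = x (i + 1) := by
    intro i
    rw [hx]
    change f ((f ^ i) t) = (f ^ (i + 1)) t
    rw [pow_succ', Module.End.mul_apply]
  have hhx : ∀ i, h (x i) = ((D : K) - 2 * i) • x i := by
    intro i
    induction i with
    | zero =>
      rw [hx]
      change h ((f ^ 0) t) = _ • (f ^ 0) t
      rw [pow_zero, Module.End.one_apply, hht]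
      congr 1
      push_cast
      ring
    | succ i ih =>
      have h2 := LinearMap.congr_fun hhf (x i)
      rw [ad_apply, LinearMap.sub_apply, Module.End.mul_apply, Module.End.mul_apply,
        LinearMap.smul_apply, hfx, ih, map_smul, hfx, sub_eq_iff_eq_add] at h2
      rw [h2]
      push_cast
      module
  have hex0 : e (x 0) = 0 := by
    rw [hx]
    change e ((f ^ 0) t) = 0
    rw [pow_zero, Module.End.one_apply, het]
  have hef : ∀ y, e (f y) = f (e y) + h y := by
    intro y
    rw [hh, ad_apply, LinearMap.sub_apply, Module.End.mul_apply, Module.End.mul_apply]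
    abel
  have hex : ∀ i, e (x (i + 1)) = (((i : K) + 1) * ((D : K) - i)) • x i := by
    intro i
    induction i with
    | zero =>
      rw [← hfx, hef, hex0, map_zero, hhx, zero_add]
      congr 1
      push_cast
      ring
    | succ i ih =>
      rw [← hfx (i + 1), hef, ih, map_smul, hfx, hhx, ← add_smul]
      congr 1
      push_cast
      ring
  have hzero : ∀ i, D < i → x i = 0 := by
    have h1 : x (D + 1) = 0 := by
      by_contra hne
      have h2 := hex D
      rw [sub_self, mul_zero, zero_smul] at h2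
      obtain ⟨j, hj⟩ := no_neg hh hhe hen hne h2 (hhx (D + 1))
      have h3 : ((D + 2 + j : ℕ) : K) = 0 := by
        push_cast at hj ⊢
        linear_combination -hj
      rw [Nat.cast_eq_zero] at h3
      omega
    intro i hi
    obtain ⟨j, rfl⟩ := Nat.exists_eq_add_of_lt hi
    clear hi
    induction j with
    | zero => exact h1
    | succ j ih =>
      rw [show D + (j + 1) + 1 = (D + j + 1) + 1 by omega, ← hfx, ih, map_zero]
  have hne : ∀ i, i ≤ D → x i ≠ 0 := by
    intro i
    induction i with
    | zero =>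
      intro _
      rw [hx]
      exact ht0
    | succ i ih =>
      intro hi h1
      have h2 := hex i
      rw [h1, map_zero] at h2
      have h3 : ((i : K) + 1) * ((D : K) - i) ≠ 0 := by
        refine mul_ne_zero (Nat.cast_add_one_ne_zero i) (sub_ne_zero.2 ?_)
        intro h4
        have := Nat.cast_inj.1 h4
        omega
      exact ih (by omega) ((smul_eq_zero.1 h2.symm).resolve_left h3)
  -- independence
  have hind : LinearIndependent K (fun i : Fin D => x (i : ℕ)) := by
    refine Module.End.eigenvectors_linearIndependent' h (fun i : Fin D => (D : K) - 2 * (i : ℕ)) ?_ _ ?_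
    · intro i j hij
      have h1 : (2 : K) * (((i : ℕ) : K) - ((j : ℕ) : K)) = 0 := by
        have h2 : (D : K) - 2 * ((i : ℕ) : K) = (D : K) - 2 * ((j : ℕ) : K) := hij
        linear_combination -h2
      have h3 := sub_eq_zero.1 ((mul_eq_zero.1 h1).resolve_left two_ne_zero)
      exact Fin.ext (Nat.cast_inj.1 h3)
    · intro i
      exact ⟨Module.End.mem_eigenspace_iff.2 (hhx i), hne i i.2.le⟩
  have hspan : Submodule.span K (Set.range fun i : Fin D => x (i : ℕ)) = LinearMap.range e := by
    refine Submodule.eq_of_le_of_finrank_eq ?_ ?_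
    · rw [Submodule.span_le]
      rintro _ ⟨i, rfl⟩
      have h3 : (((i : ℕ) : K) + 1) * ((D : K) - (i : ℕ)) ≠ 0 := by
        refine mul_ne_zero (Nat.cast_add_one_ne_zero _) (sub_ne_zero.2 ?_)
        intro h4
        have := Nat.cast_inj.1 h4
        have := i.2
        omega
      refine (Submodule.smul_mem_iff _ h3).1 ?_
      change ((((i : ℕ) : K) + 1) * ((D : K) - (i : ℕ))) • x (i : ℕ) ∈ LinearMap.range e
      rw [← hex]
      exact LinearMap.mem_range_self e _
    · rw [finrank_span_eq_card hind, Fintype.card_fin, hr]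
  have horth : ∀ i j, i + j ≠ D → ω (x i) (x j) = 0 := by
    intro i j hij
    have h1 := hhs (x i) (x j)
    rw [hhx, hhx, map_smul, map_smul, LinearMap.smul_apply, smul_eq_mul, smul_eq_mul] at h1
    have h2 : (2 : K) * (((D : ℕ) : K) - ((i + j : ℕ) : K)) * ω (x i) (x j) = 0 := by
      push_cast
      linear_combination h1
    rcases mul_eq_zero.1 h2 with h3 | h3
    · exfalso
      have h4 := sub_eq_zero.1 ((mul_eq_zero.1 h3).resolve_left two_ne_zero)
      exact hij (Nat.cast_inj.1 h4).symm
    · exact h3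
  have hmem : ∀ v, ∃ c : Fin D → K, e v = ∑ i, c i • x (i : ℕ) := by
    intro v
    have h1 : e v ∈ Submodule.span K (Set.range fun i : Fin D => x (i : ℕ)) := by
      rw [hspan]
      exact LinearMap.mem_range_self e v
    obtain ⟨c, hc⟩ := (Submodule.mem_span_range_iff_exists_fun K).1 h1
    exact ⟨c, hc.symm⟩
  -- the pairing of the extreme vectors
  have hstep : ∀ i j, ω (x (i + 1)) (x j) = -ω (x i) (x (j + 1)) := by
    intro i j
    have h1 := hfs (x i) (x j)
    rw [hfx, hfx] at h1
    linear_combination h1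
  have hpair0 : ω (x 0) (x D) ≠ 0 := by
    intro hcon
    apply hne 0 (Nat.zero_le _)
    apply hnd
    intro v
    -- `x 0` is a multiple of `e ^ D (x D)`
    have hpow : ∀ j, j ≤ D → ∃ c : K, c ≠ 0 ∧ (e ^ j) (x j) = c • x 0 := by
      intro j
      induction j with
      | zero => intro _; exact ⟨1, one_ne_zero, by rw [pow_zero, one_smul]; rfl⟩
      | succ j ih =>
        intro hj
        obtain ⟨c, hc, h1⟩ := ih (by omega)
        have h3 : ((j : K) + 1) * ((D : K) - j) ≠ 0 := by
          refine mul_ne_zero (Nat.cast_add_one_ne_zero _) (sub_ne_zero.2 ?_)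
          intro h4
          have := Nat.cast_inj.1 h4
          omega
        refine ⟨((j : K) + 1) * ((D : K) - j) * c, mul_ne_zero h3 hc, ?_⟩
        rw [pow_succ, Module.End.mul_apply, hex, map_smul, h1, smul_smul]
    obtain ⟨c, hc, hcD⟩ := hpow D le_rfl
    have hmove : ∀ (n : ℕ) (u w : T), ω ((e ^ n) u) w = (-1) ^ n * ω u ((e ^ n) w) := by
      intro n
      induction n with
      | zero => intro u w; simp
      | succ n ih =>
        intro u w
        have h1 : ω (e ((e ^ n) u)) w = -ω ((e ^ n) u) (e w) := by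
          linear_combination hes ((e ^ n) u) w
        have h2 : (e ^ (n + 1)) u = e ((e ^ n) u) := by
          rw [pow_succ', Module.End.mul_apply]
        have h3 : (e ^ (n + 1)) w = (e ^ n) (e w) := by
          rw [pow_succ, Module.End.mul_apply]
        rw [h2, h3, h1, ih, pow_succ]
        ring
    -- `e ^ D v` is a multiple of `x 0`
    have hv' : ∃ a : K, (e ^ D) v = a • x 0 := by
      obtain ⟨d, hd⟩ : ∃ d, D = d + 1 := ⟨D - 1, by omega⟩
      obtain ⟨c', hc'⟩ := hmem v
      have h1 : ∀ i : ℕ, i < d → (e ^ d) (x i) = 0 := by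
        intro i hi
        obtain ⟨b, -, hb⟩ := hpow i (by omega)
        obtain ⟨r, hr⟩ : ∃ r, d = (r + 1) + i := ⟨d - i - 1, by omega⟩
        rw [hr, pow_add, Module.End.mul_apply, hb, map_smul, pow_succ, Module.End.mul_apply, hex0,
          map_zero, smul_zero]
      have h2 : ∃ b : K, (e ^ d) (x d) = b • x 0 := by
        obtain ⟨b, -, hb⟩ := hpow d (by omega)
        exact ⟨b, hb⟩
      obtain ⟨b, hb⟩ := h2
      refine ⟨c' ⟨d, by omega⟩ * b, ?_⟩
      conv_lhs => rw [hd]
      rw [pow_succ, Module.End.mul_apply, hc', map_sum, Finset.sum_eq_single ⟨d, by omega⟩]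
      · rw [map_smul, hb, smul_smul]
      · intro i _ hi
        have h3 : (i : ℕ) < d := by
          have h4 := i.2
          have h5 : (i : ℕ) ≠ d := fun h => hi (Fin.ext h)
          omega
        rw [map_smul, h1 _ h3, smul_zero]
      · intro h3
        exact absurd (mem_univ _) h3
    obtain ⟨a, ha⟩ := hv'
    have h1 := hmove D (x D) v
    rw [hcD, ha, map_smul, LinearMap.smul_apply, map_smul, smul_eq_mul, smul_eq_mul] at h1
    have h2 : ω (x D) (x 0) = 0 := by
      have h3 : ∀ i j, i + j = D → ω (x i) (x j) = (-1) ^ i * ω (x 0) (x D) := by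
        intro i
        induction i with
        | zero =>
          intro j hj
          rw [show j = D by omega, pow_zero, one_mul]
        | succ i ih =>
          intro j hj
          rw [hstep, ih (j + 1) (by omega), pow_succ]
          ring
      rw [h3 D 0 (by omega), hcon, mul_zero]
    rw [h2, mul_zero, mul_zero] at h1
    exact (mul_eq_zero.1 h1).resolve_left hc
  have hpair : ∀ i j, i + j = D → ω (x i) (x j) ≠ 0 := by
    intro i
    induction i with
    | zero =>
      intro j hj
      rw [show j = D by omega]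
      exact hpair0
    | succ i ih =>
      intro j hj
      rw [hstep]
      exact neg_ne_zero.2 (ih (j + 1) (by omega))
  -- the complement
  have hker1 : ∀ r, (∀ i, ω (x i) r = 0) → e r = 0 := by
    intro r hr0
    obtain ⟨c, hc⟩ := hmem r
    rw [hc]
    refine Finset.sum_eq_zero fun i _ => ?_
    have h1 : ω (x (D - i)) (e r) = 0 := by
      have h2 := hes (x (D - i)) r
      obtain ⟨j, hj⟩ : ∃ j, D - (i : ℕ) = j + 1 := ⟨D - i - 1, by have := i.2; omega⟩
      rw [hj, hex, map_smul, LinearMap.smul_apply, hr0, smul_zero, zero_add] at h2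
      rw [hj]
      exact h2
    rw [hc, map_sum, Finset.sum_eq_single i] at h1
    · rw [map_smul, smul_eq_mul] at h1
      have h3 := (mul_eq_zero.1 h1).resolve_right (hpair _ _ (by have := i.2; omega))
      rw [h3, zero_smul]
    · intro j _ hj
      rw [map_smul, horth, smul_zero]
      intro h4
      apply hj
      have h5 := i.2
      have h6 := j.2
      exact Fin.ext (by omega)
    · intro h4
      exact absurd (mem_univ _) h4
  have hRf : ∀ r, (∀ i, ω (x i) r = 0) → ∀ i, ω (x i) (f r) = 0 := by
    intro r hr0 i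
    have h1 := hfs (x i) r
    rw [hfx, hr0, zero_add] at h1
    exact h1
  have hker2 : ∀ r, (∀ i, ω (x i) r = 0) → h r = 0 := by
    intro r hr0
    have h1 := hef r
    rw [hker1 _ (hRf r hr0), hker1 r hr0, map_zero, zero_add] at h1
    exact h1.symm
  refine ⟨x, hD, hhe, hhf, hh, hen, hes, hhs, hfs, hfx, hhx, hex0, hex, hzero, horth, hpair,
    fun r hr0 => ⟨hker1 r hr0, hker2 r hr0, ?_⟩⟩
  have h1 := LinearMap.congr_fun hhf r
  rw [ad_apply, LinearMap.sub_apply, Module.End.mul_apply, Module.End.mul_apply,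
    LinearMap.smul_apply, hker2 r hr0, map_zero, sub_zero, hker2 _ (hRf r hr0)] at h1
  exact (smul_eq_zero.1 h1.symm).resolve_left (by norm_num)

end Pool.Agent.Helper85.SJ
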